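import Mathlib

/-!
# Project JQ (helper533): quartic characters and the curves `y² = x³ - D x`.  Statements.

All formulas were checked numerically.  `π = a + m i`, `p = a² + m²`, `a` odd, `m` even, `ε = χ₄(a + m) = ±1`.
-/

set_option autoImplicit false

namespace Pool.Agent.H533.JQ

open Finset

/-- the Gaussian integers -/
abbrev ZI := GaussianInt

/-- `a + m i` -/
def gz (a m : ℤ) : ZI := ⟨a, m⟩

/-- `i` -/
def gi : ZI := ⟨0, 1⟩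

/-- the data -/
structure PD (p : ℕ) (a m : ℤ) : Prop where
  pr : p.Prime
  rep : a ^ 2 + m ^ 2 = (p : ℤ)
  odd : a % 2 = 1
  even : m % 2 = 0

/-- the quadratic character with values in `ℤ[i]` -/
noncomputable def q2 (p : ℕ) [Fact p.Prime] : MulChar (ZMod p) ZI := (quadraticChar (ZMod p)).ringHomComp (Int.castRingHom ZI)

/-- `χ` is the quartic residue character modulo `π = a + m i`: `χ(n) ≡ n^((p-1)/4)` modulo `π` -/
structure QC (p : ℕ) [Fact p.Prime] (a m : ℤ) (χ : MulChar (ZMod p) ZI) : Prop where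
  four : ∀ x : ZMod p, x ≠ 0 → χ x ^ 4 = 1
  cong : ∀ n : ℤ, ¬ (p : ℤ) ∣ n → gz a m ∣ ((n : ZI) ^ ((p - 1) / 4)) - χ (n : ZMod p)

/-- (CHAR) the quartic character exists. Proof: `p ≡ 1 mod 4`, `ρ = - a / m` in `ZMod p` (`m ≠ 0` there) has `ρ² = -1`. For `x ≠ 0`
`y = x^((p-1)/4)` has `y⁴ = 1`, so `y = 1, ρ, -1` or `-ρ` (`y² = ±1 = (±1)² or ρ²`); put `χ x = 1, i, -1, -i` (and `0` at `0`).
Multiplicative since `1, ρ, -1, -ρ` are different (`p` odd) and multiply as `1, i, -1, -i`. Congruence: the ring homomorphism `ℤ[i] → ZMod p`,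
`x + y i ↦ x + y ρ` (Zsqrtd.lift) sends `n^((p-1)/4) - χ(n)` to `0`, and its kernel is `(π)`: if `x + y ρ = 0` then `p ∣ x m - y a`,
hence `p ∣ a x + m y` (multiply by `m`: `m (a x + m y) ≡ a² y + m² y = p y`), so `conj(π) (x + y i) = (a x + m y) + (a y - m x) i` is divisible by
`p = π conj(π)`, and `π ∣ x + y i` (cancel `conj π ≠ 0`). -/
def S_CHAR : Prop := ∀ (p : ℕ) [Fact p.Prime] (a m : ℤ), PD p a m → ∃ χ : MulChar (ZMod p) ZI, QC p a m χ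

/-- (DIV) `π` divides the Jacobi sum. Proof: multiply out modulo `π`: for `n = 0, …, p-1` (as integers), `χ(n) ≡ n^((p-1)/4)` mod `π` (also for
`n = 0`, both sides `0`), `quadraticChar(1 - n) ≡ (1 - n)^((p-1)/2)` mod `p`, hence mod `π` (`π ∣ p`). So the Jacobi sum is congruent modulo `π` to the integer
`∑_{n<p} n^((p-1)/4) (1 - n)^((p-1)/2)`, which is divisible by `p`: expand `(1 - n)^((p-1)/2)` by the binomial theorem; all the exponents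
of `n` are positive and less than `p - 1` (`(p-1)/4 + (p-1)/2 < p - 1`), and `FiniteField.sum_pow_lt_card_sub_one`. -/
def S_DIV : Prop := ∀ (p : ℕ) [Fact p.Prime] (a m : ℤ) (χ : MulChar (ZMod p) ZI), PD p a m → QC p a m χ →
  gz a m ∣ jacobiSum χ (q2 p)

/-- (NRM) the norm of the Jacobi sum. Proof: apply `GaussianInt.toComplex` (injective); `χ`, `q2 p`, `χ * q2 p` are nontrivial
(`χ² = q2`: `χ(x)² ≡ x^((p-1)/2)` mod `π` and both are `±1`, `π` does not divide `2`; so `χ = 1` would give `q2 = 1`, and `χ q2 = 1` would give `q2 = χ² = χ⁻¹ ^ 2`, …: `χ q2 = χ³ = χ⁻¹`,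
nontrivial); Mathlib: `jacobiSum_mul_jacobiSum_inv` (or the norm statement for complex Jacobi sums) and `star` of `χ` is `χ⁻¹`. -/
def S_NRM : Prop := ∀ (p : ℕ) [Fact p.Prime] (a m : ℤ) (χ : MulChar (ZMod p) ZI), PD p a m → QC p a m χ →
  jacobiSum χ (q2 p) * star (jacobiSum χ (q2 p)) = (p : ZI)

/-- (TRF) the character sum of `x³ - D x`. Proof: `χ(x)² = q(x)` for the quadratic character `q` (`χ(x)² ≡ x^((p-1)/2) ≡ q(x)` mod `π`, both are `±1`, `π ∤ 2`).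
`∑_x q(x³ - D x) = ∑_{x ≠ 0} q(x) q(x² - D) = ∑_{x≠0} χ(x²) q(x² - D) = ∑_{y ≠ 0} χ(y) (1 + q(y)) q(y - D)` (every `y ≠ 0` has `1 + q(y)` square roots) `= ∑_y (χ(y) + χ(y)³) q(y - D)`,
`χ³ = star χ`; and with `y = D z`: `∑_y χ(y) q(y - D) = χ(D) q(D) ∑_z χ(z) q(z - 1) = χ(D)³ q(-1) J = star (χ D) J` as `q(-1) = 1`; the other sum is its `star`. -/
def S_TRF : Prop := ∀ (p : ℕ) [Fact p.Prime] (a m : ℤ) (χ : MulChar (ZMod p) ZI), PD p a m → QC p a m χ → ∀ D : ZMod p, D ≠ 0 →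
  ((∑ x : ZMod p, quadraticChar (ZMod p) (x ^ 3 - D * x) : ℤ) : ZI) =
    star (χ D) * jacobiSum χ (q2 p) + χ D * star (jacobiSum χ (q2 p))

/-- (JAC) from DIV, NRM and TRF with `D = 1`: the Jacobi sum is `w π` with a unit `w` (norm 1: `w ∈ {1, i, -1, -i}`), and the sum for `D = 1` is
`2 Re J = - 2 ε a`; for `w = ±i` the real part of `w π` is `∓ m`, even, while `ε a` is odd; so `w = ±1` and `w a = - ε a`, `w = - ε`. -/
def S_JAC : Prop := S_DIV → S_NRM → S_TRF → ∀ (p : ℕ) [Fact p.Prime] (a m : ℤ) (χ : MulChar (ZMod p) ZI), PD p a m → QC p a m χ →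
  (∑ x : ZMod p, quadraticChar (ZMod p) (x ^ 3 - x) : ℤ) = - (2 * ZMod.χ₄ ((a + m : ℤ) : ZMod 4) * a) →
  jacobiSum χ (q2 p) = - ((ZMod.χ₄ ((a + m : ℤ) : ZMod 4) : ℤ) : ZI) * gz a m

/-- (GSF) Gauss sums in characteristic `ℓ`. `F` the algebraic closure of `ZMod ℓ`, `φ : ℤ[i] → F`, `X = χ.ringHomComp φ`, `Q = (q2 p).ringHomComp φ`, `ψ` a primitive additive character of
`ZMod p` with values in `F` (exists as `ℓ ≠ p`; `AddChar.FiniteField.primitiveChar` or `AddChar.zmodChar` with a primitive `p`-th root of unity of `F`), `G = gaussSum X ψ`. Then `X Q = X⁻¹`,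
`gaussSum X⁻¹ ψ * φ J = G * gaussSum Q ψ` (`jacobiSum_mul_nontrivial`), `(gaussSum Q ψ)² = p` (`Q(-1) = 1`; gaussSum_sq), `G * gaussSum X⁻¹ ψ = X(-1) p` (`gaussSum_mul_gaussSum_eq_card` and mulShift by `-1`), so
`φ(J)² p² = G⁴ p`, `G⁴ = p φ(J)² = φ(p π²)`. Frobenius: `G^ℓ = gaussSum (X^ℓ) (ψ^ℓ)` (`gaussSum_frob`), `= X^ℓ(ℓ)⁻¹ gaussSum (X^ℓ) ψ` (`gaussSum_mulShift`). If `ℓ ≡ 1 mod 4` then `X^ℓ = X` and
`G^(ℓ-1) X(ℓ) = 1`; if `ℓ ≡ 3 mod 4` then `X^ℓ = X⁻¹`, `G^ℓ = X(ℓ) gaussSum X⁻¹ ψ`, `G^(ℓ+1) = X(ℓ) X(-1) p`. -/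
def S_GSF : Prop := ∀ (p ℓ : ℕ) [Fact p.Prime] [Fact ℓ.Prime] (a m : ℤ) (χ : MulChar (ZMod p) ZI), PD p a m → QC p a m χ → ℓ ≠ 2 → ℓ ≠ p →
  jacobiSum χ (q2 p) ^ 2 = gz a m ^ 2 → ∀ φ : ZI →+* AlgebraicClosure (ZMod ℓ),
  (ℓ % 4 = 1 → φ (χ (ℓ : ZMod p)) * φ ((p : ZI) * gz a m ^ 2) ^ ((ℓ - 1) / 4) = 1) ∧
  (ℓ % 4 = 3 → φ (χ (ℓ : ZMod p)) * φ (χ (-1)) * φ (p : ZI) = φ ((p : ZI) * gz a m ^ 2) ^ ((ℓ + 1) / 4))

/-- (PERL) periodicity at odd primes. Proof: a ring homomorphism `φ : ℤ[i] → F` exists (`x² = -1` has a root in `F`; `Zsqrtd.lift`), it is injective on `{1, i, -1, -i}` (`ℓ` odd), and kills multiples of `ℓ`, so that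
`φ(p) = φ(p')` and `φ(gz a m) = φ(gz a' m')`; `φ(p), φ(π)` are not `0` as `ℓ ≠ p`. `ℓ ≡ 1`: `φ(χ ℓ)` is the inverse of the same number. `ℓ ≡ 3`: `χ(-1) ≡ (-1)^((p-1)/4)` mod `π`, so `χ(-1) = (-1)^((p-1)/4)`, and `(p - 1)/4` is
`m²/4` modulo 2 (`a² ≡ 1 mod 8`), so `χ(-1) = χ'(-1)` because `m ≡ m' mod 4`; divide. The values `χ(ℓ), χ'(ℓ)` are in `{1, i, -1, -i}` by QC.four. -/
def S_PERL : Prop := S_GSF → ∀ (p p' ℓ : ℕ) [Fact p.Prime] [Fact p'.Prime] [Fact ℓ.Prime] (a m a' m' : ℤ) (χ : MulChar (ZMod p) ZI)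
  (χ' : MulChar (ZMod p') ZI), PD p a m → PD p' a' m' → QC p a m χ → QC p' a' m' χ' →
  jacobiSum χ (q2 p) ^ 2 = gz a m ^ 2 → jacobiSum χ' (q2 p') ^ 2 = gz a' m' ^ 2 → ℓ ≠ 2 → ℓ ≠ p → ℓ ≠ p' →
  (4 * (ℓ : ℤ)) ∣ a - a' → (4 * (ℓ : ℤ)) ∣ m - m' → χ (ℓ : ZMod p) = χ' (ℓ : ZMod p')

/-- (TWO) the value at 2. Proof: `2 = -i (1 + i)²`. Modulo `π`: `i ≡ ρ = - a / m`, so `1 + i ≡ (m - a) / m` in `ℤ[i]/π = ZMod p`, and `2^((p-1)/4) ≡ (-i)^((p-1)/4) (1+i)^((p-1)/2)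
≡ (-i)^((p-1)/4) ((m - a)/p) (m/p)` (Legendre symbols, Euler's criterion). `((m-a)/p) = (|a-m|/p) = (p/|a-m|)` (`p ≡ 1 mod 4`, Jacobi reciprocity) `= (2 a²/|a-m|) = (2/|a-m|)` since
`p = a² + m² ≡ 2 a²` modulo `a - m` and `gcd(a, a - m) = 1`; and `(m/p) = (2/p)^k (m₁/p)` for `|m| = 2^k m₁`, `(m₁/p) = (p/m₁) = (a²/m₁) = 1`, `(2/p) = (-1)^(m/2)` (`p ≡ 1 + m² mod 8`), which gives `(-1)^(m/2)` in both cases
`k = 1`, `k ≥ 2`. Both sides are in `{1, i, -1, -i}`, which are different modulo `π`. -/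
def S_TWO : Prop := ∀ (p : ℕ) [Fact p.Prime] (a m : ℤ) (χ : MulChar (ZMod p) ZI), PD p a m → QC p a m χ →
  χ 2 = (-gi) ^ ((p - 1) / 4) * (-1) ^ (m / 2).natAbs * ((jacobiSym 2 (a - m).natAbs : ℤ) : ZI)

end Pool.Agent.H533.JQ
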