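import Mathlib
import Pool.Agent.H533.JQ.Stm

set_option autoImplicit false

namespace Pool.Agent.H533.JQ.CHAR

open Finset

theorem gi_sq : gi * gi = (-1 : ZI) := by
  apply Zsqrtd.ext <;> simp [gi]

/-- fourth roots of unity of the Gaussian integers -/
theorem four_cases (z : ZI) (h : z ^ 4 = 1) : z = 1 ∨ z = -1 ∨ z = gi ∨ z = -gi := by
  have h1 : (z - 1) * ((z + 1) * ((z - gi) * (z + gi))) = 0 := by
    have : (z - 1) * ((z + 1) * ((z - gi) * (z + gi))) = (z ^ 2 - 1) * (z ^ 2 - gi * gi) := by ring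
    rw [this, gi_sq]
    linear_combination h
  rcases mul_eq_zero.mp h1 with h2 | h2
  · left; exact sub_eq_zero.mp h2
  rcases mul_eq_zero.mp h2 with h3 | h3
  · right; left; exact eq_neg_of_add_eq_zero_left h3
  rcases mul_eq_zero.mp h3 with h4 | h4
  · right; right; left; exact sub_eq_zero.mp h4
  · right; right; right; exact eq_neg_of_add_eq_zero_left h4

theorem gi_four : gi ^ 4 = (1 : ZI) := by
  have : gi ^ 4 = (gi * gi) * (gi * gi) := by ring
  rw [this, gi_sq]; ring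

section
variable {p : ℕ} [Fact p.Prime] {a m : ℤ}

theorem m_ne (h : PD p a m) : (m : ZMod p) ≠ 0 := by
  intro hm
  have hr := h.rep
  have h1 : ((a : ZMod p)) ^ 2 + (m : ZMod p) ^ 2 = 0 := by
    have : (((a ^ 2 + m ^ 2 : ℤ)) : ZMod p) = ((p : ℤ) : ZMod p) := by rw [hr]
    push_cast at this
    rw [this]; simp
  have ha : (a : ZMod p) = 0 := by
    rw [hm] at h1
    have : (a : ZMod p) ^ 2 = 0 := by simpa using h1
    exact pow_eq_zero_iff (two_ne_zero) |>.mp this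
  rw [ZMod.intCast_zmod_eq_zero_iff_dvd] at hm ha
  obtain ⟨c, hc⟩ := hm
  obtain ⟨d, hd⟩ := ha
  have hp : (0 : ℤ) < p := by exact_mod_cast h.pr.pos
  have hp1 : (1 : ℤ) < p := by exact_mod_cast h.pr.one_lt
  have h2 : (p : ℤ) * ((p : ℤ) * (d ^ 2 + c ^ 2)) = (p : ℤ) * 1 := by
    rw [hc, hd] at hr
    linear_combination hr
  have h3 : (p : ℤ) * (d ^ 2 + c ^ 2) = 1 := mul_left_cancel₀ hp.ne' h2
  have h4 : (p : ℤ) ∣ 1 := ⟨_, h3.symm⟩
  have h5 := Int.le_of_dvd one_pos h4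
  omega

theorem two_ne (h : PD p a m) : (2 : ZMod p) ≠ 0 := by
  intro h2
  have h3 : ((2 : ℤ) : ZMod p) = 0 := by exact_mod_cast h2
  rw [ZMod.intCast_zmod_eq_zero_iff_dvd] at h3
  have h4 : p ∣ 2 := by exact_mod_cast h3
  have h5 : p = 2 := (Nat.prime_dvd_prime_iff_eq h.pr Nat.prime_two).mp h4
  have hr := h.rep
  have ho := h.odd
  have he := h.even
  obtain ⟨k, hk⟩ : ∃ k, a = 2 * k + 1 := ⟨a / 2, by omega⟩
  obtain ⟨l, hl⟩ : ∃ l, m = 2 * l := ⟨m / 2, by omega⟩
  rw [h5, hk, hl] at hr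
  have : 2 * (2 * k ^ 2 + 2 * k + 2 * l ^ 2) + 1 = 2 := by push_cast at hr; linarith
  omega

omit [Fact p.Prime] in
theorem four_dvd (h : PD p a m) : (p - 1) / 4 * 4 = p - 1 := by
  have hr := h.rep
  have ho := h.odd
  have he := h.even
  obtain ⟨k, hk⟩ : ∃ k, a = 2 * k + 1 := ⟨a / 2, by omega⟩
  obtain ⟨l, hl⟩ : ∃ l, m = 2 * l := ⟨m / 2, by omega⟩
  rw [hk, hl] at hr
  have : (p : ℤ) = 4 * (k ^ 2 + k + l ^ 2) + 1 := by linarith
  have hp := h.pr.pos
  generalize k ^ 2 + k + l ^ 2 = t at this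
  omega

theorem ker (h : PD p a m) (r : ZMod p) (hr : r * m = -a) (z : ZI) (hz : (z.re : ZMod p) + (z.im : ZMod p) * r = 0) :
    gz a m ∣ z := by
  have hm := m_ne h
  have hrep := h.rep
  have hpp : ((a : ZMod p)) ^ 2 + (m : ZMod p) ^ 2 = 0 := by
    have : (((a ^ 2 + m ^ 2 : ℤ)) : ZMod p) = ((p : ℤ) : ZMod p) := by rw [hrep]
    push_cast at this
    rw [this]; simp
  have h1 : (((a * z.im - m * z.re : ℤ)) : ZMod p) = 0 := by
    push_cast
    linear_combination (-(m : ZMod p)) * hz + (z.im : ZMod p) * hr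
  have h2 : (((a * z.re + m * z.im : ℤ)) : ZMod p) = 0 := by
    have h3 : (m : ZMod p) * (((a * z.re + m * z.im : ℤ)) : ZMod p) = 0 := by
      push_cast
      push_cast at h1
      linear_combination (-(a : ZMod p)) * h1 + (z.im : ZMod p) * hpp
    rcases mul_eq_zero.mp h3 with h4 | h4
    · exact absurd h4 hm
    · exact h4
  rw [ZMod.intCast_zmod_eq_zero_iff_dvd] at h1 h2
  obtain ⟨t, ht⟩ := h1
  obtain ⟨s, hs⟩ := h2
  have hp : (p : ℤ) ≠ 0 := by exact_mod_cast h.pr.pos.ne'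
  refine ⟨⟨s, t⟩, ?_⟩
  apply Zsqrtd.ext
  · have : (p : ℤ) * z.re = p * (a * s - m * t) := by
      linear_combination (-z.re) * hrep + a * hs - m * ht
    have := mul_left_cancel₀ hp this
    simp only [gz, Zsqrtd.re_mul]
    linarith
  · have : (p : ℤ) * z.im = p * (a * t + m * s) := by
      linear_combination (-z.im) * hrep + a * ht + m * hs
    have := mul_left_cancel₀ hp this
    simp only [gz, Zsqrtd.im_mul]
    linarith

end

theorem t_CHAR : S_CHAR := by
  intro p _ a m h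
  have hm := m_ne h
  have h2 := two_ne h
  have h4 := four_dvd h
  have hrep := h.rep
  have hpp : ((a : ZMod p)) ^ 2 + (m : ZMod p) ^ 2 = 0 := by
    have : (((a ^ 2 + m ^ 2 : ℤ)) : ZMod p) = ((p : ℤ) : ZMod p) := by rw [hrep]
    push_cast at this
    rw [this]; simp
  obtain ⟨r, hr⟩ : ∃ r : ZMod p, r * m = -a := ⟨-a / m, by field_simp⟩
  have hrr : r * r = -1 := by
    have : (r * r + 1) * (m : ZMod p) ^ 2 = 0 := by
      linear_combination (r * m - a) * hr + hpp
    rcases mul_eq_zero.mp this with h5 | h5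
    · exact eq_neg_of_add_eq_zero_left h5
    · exact absurd h5 (pow_ne_zero 2 hm)
  have hrr' : r * r = ((-1 : ℤ) : ZMod p) := by rw [hrr]; simp
  obtain ⟨φ, hφ⟩ : ∃ φ : ZI →+* ZMod p, ∀ z : ZI, φ z = (z.re : ZMod p) + (z.im : ZMod p) * r :=
    ⟨Zsqrtd.lift ⟨r, hrr'⟩, fun z => by rfl⟩
  have hφi : φ gi = r := by rw [hφ]; simp [gi]
  have hex : ∀ y : ZMod p, y ^ 4 = 1 → ∃ z : ZI, z ^ 4 = 1 ∧ φ z = y := by
    intro y hy
    have h5 : (y - 1) * ((y + 1) * ((y - r) * (y + r))) = 0 := by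
      have : (y - 1) * ((y + 1) * ((y - r) * (y + r))) = (y ^ 2 - 1) * (y ^ 2 - r * r) := by ring
      rw [this, hrr]
      linear_combination hy
    rcases mul_eq_zero.mp h5 with h6 | h6
    · exact ⟨1, by simp, by rw [map_one]; exact (sub_eq_zero.mp h6).symm⟩
    rcases mul_eq_zero.mp h6 with h7 | h7
    · exact ⟨-1, by ring, by rw [map_neg, map_one]; exact (eq_neg_of_add_eq_zero_left h7).symm⟩
    rcases mul_eq_zero.mp h7 with h8 | h8
    · exact ⟨gi, gi_four, by rw [hφi]; exact (sub_eq_zero.mp h8).symm⟩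
    · refine ⟨-gi, ?_, by rw [map_neg, hφi]; exact (eq_neg_of_add_eq_zero_left h8).symm⟩
      have : (-gi : ZI) ^ 4 = gi ^ 4 := by ring
      rw [this, gi_four]
  have hu1 : ∀ u : ZI, u ^ 4 = 1 → φ u = 1 → u = 1 := by
    intro u hu hf
    rcases four_cases u hu with h5 | h5 | h5 | h5
    · exact h5
    · exfalso
      rw [h5, map_neg, map_one] at hf
      apply h2
      linear_combination -hf
    · exfalso
      rw [h5, hφi] at hf
      rw [hf] at hrr
      apply h2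
      linear_combination hrr
    · exfalso
      rw [h5, map_neg, hφi] at hf
      apply h2
      have : r * r = 1 := by linear_combination (-r + 1) * hf
      linear_combination hrr - this
  have huniq : ∀ z w : ZI, z ^ 4 = 1 → w ^ 4 = 1 → φ z = φ w → z = w := by
    intro z w hz hw hf
    have h5 : (z * w ^ 3) = 1 := by
      apply hu1
      · have : (z * w ^ 3) ^ 4 = z ^ 4 * (w ^ 4) ^ 3 := by ring
        rw [this, hz, hw]; simp
      · rw [map_mul, map_pow, hf]
        have : φ w * φ w ^ 3 = φ (w ^ 4) := by rw [map_pow]; ring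
        rw [this, hw, map_one]
    linear_combination (-z) * hw + w * h5
  have hx4 : ∀ x : ZMod p, x ≠ 0 → (x ^ ((p - 1) / 4)) ^ 4 = 1 := by
    intro x hx
    rw [← pow_mul, h4]
    exact ZMod.pow_card_sub_one_eq_one hx
  have hex2 : ∀ x : ZMod p, ∃ z : ZI, (x = 0 → z = 0) ∧ (x ≠ 0 → z ^ 4 = 1 ∧ φ z = x ^ ((p - 1) / 4)) := by
    intro x
    by_cases hx : x = 0
    · exact ⟨0, fun _ => rfl, fun h => absurd hx h⟩
    · obtain ⟨z, hz⟩ := hex _ (hx4 x hx)
      exact ⟨z, fun h => absurd h hx, fun _ => hz⟩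
  choose f hf0 hf1 using hex2
  refine ⟨{ toFun := f, map_one' := ?_, map_mul' := ?_, map_nonunit' := ?_ }, ?_, ?_⟩
  · obtain ⟨h5, h6⟩ := hf1 1 one_ne_zero
    exact hu1 _ h5 (by rw [h6]; simp)
  · intro x y
    by_cases hx : x = 0
    · simp [hx, hf0]
    by_cases hy : y = 0
    · simp [hy, hf0]
    obtain ⟨h5, h6⟩ := hf1 (x * y) (mul_ne_zero hx hy)
    obtain ⟨h7, h8⟩ := hf1 x hx
    obtain ⟨h9, h10⟩ := hf1 y hy
    apply huniq _ _ h5
    · rw [mul_pow, h7, h9, one_mul]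
    · rw [map_mul, h6, h8, h10, mul_pow]
  · intro x hx
    apply hf0
    by_contra h5
    exact hx (isUnit_iff_ne_zero.mpr h5)
  · intro x hx
    exact (hf1 x hx).1
  · intro n hn
    have hn' : (n : ZMod p) ≠ 0 := by
      intro h5
      rw [ZMod.intCast_zmod_eq_zero_iff_dvd] at h5
      exact hn h5
    apply ker h r hr
    rw [← hφ]
    rw [map_sub, map_pow, map_intCast]
    have := (hf1 _ hn').2
    change (n : ZMod p) ^ ((p - 1) / 4) - φ (f (n : ZMod p)) = 0
    rw [this, sub_self]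

end Pool.Agent.H533.JQ.CHAR
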