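import Pool.Agent.H533.JT.Cst

/-!
# Project JQ (helper533): systems of curves whose traces are given by the classes of `a + m i`
-/

set_option autoImplicit false

namespace Pool.Agent.H533.JQ

open Finset Filter Topology Pool.Agent.N782.GN Pool.Agent.N782.GN.LT Pool.Agent.H533.JT

/-- the trace of `E` at `p = a² + m²` is determined by the class of `(a, m)` modulo `q` -/
structure Law (E : ℤ × ℤ) (q : ℕ) : Prop where
  rep : ∀ p : ℕ, p.Prime → ¬ p ∣ q → trace E p ≠ 0 → ∃ a m : ℤ, a ^ 2 + m ^ 2 = (p : ℤ) ∧ trace E p = 2 * a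
  per : ∀ (p p' : ℕ) (a m a' m' : ℤ), p.Prime → p'.Prime → ¬ p ∣ q → ¬ p' ∣ q → a ^ 2 + m ^ 2 = (p : ℤ) →
    a' ^ 2 + m' ^ 2 = (p' : ℤ) → (q : ℤ) ∣ a - a' → (q : ℤ) ∣ m - m' → trace E p = 2 * a → trace E p' = 2 * a'

/-- a law holds modulo multiples -/
theorem Law.mul {E : ℤ × ℤ} {q : ℕ} (h : Law E q) {Q : ℕ} (hQ : q ∣ Q) : Law E Q := by
  have hz : (q : ℤ) ∣ (Q : ℤ) := Int.natCast_dvd_natCast.2 hQ
  refine ⟨fun p hp hq ht => h.rep p hp (fun h' => hq (h'.trans hQ)) ht, ?_⟩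
  intro p p' a m a' m' hp hp' hq hq' h1 h2 h3 h4 h5
  exact h.per p p' a m a' m' hp hp' (fun h' => hq (h'.trans hQ)) (fun h' => hq' (h'.trans hQ)) h1 h2 (hz.trans h3)
    (hz.trans h4) h5

variable {k : ℕ}

/-- the condition -/
def HQ (E : Fin (k + 1) → ℤ × ℤ) (s : Fin (k + 1) → ℤ) (q N c : ℕ) (a m : ℤ) : Prop :=
  ∃ (p : ℕ) (a' m' : ℤ), p.Prime ∧ ¬ p ∣ q ∧ p % N = c % N ∧ a' ^ 2 + m' ^ 2 = (p : ℤ) ∧ (q : ℤ) ∣ a' - a ∧ (q : ℤ) ∣ m' - m ∧
    ∀ j, trace (E j) p = s j * (2 * a')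

theorem adm_HQ (E : Fin (k + 1) → ℤ × ℤ) (s : Fin (k + 1) → ℤ) {q : ℕ} (hq : 1 ≤ q) (N c : ℕ) : Adm q (HQ E s q N c) := by
  have key : ∀ a m a' m' : ℤ, (q : ℤ) ∣ a - a' → (q : ℤ) ∣ m - m' → HQ E s q N c a m → HQ E s q N c a' m' := by
    rintro a m a' m' ha hm ⟨p, u, v, h1, h2, h3, h4, h5, h6, h7⟩
    refine ⟨p, u, v, h1, h2, h3, h4, ?_, ?_, h7⟩
    · have := dvd_add h5 ha
      rwa [sub_add_sub_cancel] at this
    · have := dvd_add h6 hm
      rwa [sub_add_sub_cancel] at this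
  have keye : ∀ a m : ℤ, HQ E s q N c a m → HQ E s q N c a (-m) := by
    rintro a m ⟨p, u, v, h1, h2, h3, h4, h5, h6, h7⟩
    refine ⟨p, u, -v, h1, h2, h3, by rw [neg_sq]; exact h4, h5, ?_, h7⟩
    have : -v - -m = -(v - m) := by ring
    rw [this]
    exact (dvd_neg).2 h6
  refine ⟨hq, ?_, ?_, ?_⟩
  · intro a m a' m' ha hm
    constructor
    · exact key a m a' m' ha hm
    · refine key a' m' a m ?_ ?_
      · rw [← neg_sub]
        exact (dvd_neg).2 ha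
      · rw [← neg_sub]
        exact (dvd_neg).2 hm
  · intro a m
    constructor
    · intro h
      have := keye a (-m) h
      rwa [neg_neg] at this
    · exact keye a m
  · rintro a m ⟨p, u, v, h1, h2, h3, h4, ⟨x, hx⟩, ⟨y, hy⟩, h7⟩
    have h8 : IsCoprime (p : ℤ) (q : ℤ) := Nat.isCoprime_iff_coprime.2 ((Nat.Prime.coprime_iff_not_dvd h1).2 h2)
    have h9 : a ^ 2 + m ^ 2 = (p : ℤ) + q * (-(x * (u + a) + y * (v + m))) := by
      have e1 : u ^ 2 + v ^ 2 - (a ^ 2 + m ^ 2) = (u - a) * (u + a) + (v - m) * (v + m) := by ring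
      rw [hx, hy, h4] at e1
      linarith
    rw [h9]
    exact IsCoprime.add_mul_left_left h8 _

open Classical in
/-- The number of the classes `m` modulo `q` such that for some prime `p = a'² + m'²`, `p ≡ c` modulo `N`, `p ∤ q`, with
`(a', m') ≡ (r_0/2, m)` modulo `q` the traces `a_p(E_j)` are `(r_j / r_0) 2 a'` (`r_0` even). -/
noncomputable def classesQ (E : Fin (k + 1) → ℤ × ℤ) (q N c : ℕ) (r : Fin (k + 1) → ℤ) : ℕ :=
  ((range q).filter (fun m : ℕ => r 0 % 2 = 0 ∧ ∃ (p : ℕ) (a' m' : ℤ), p.Prime ∧ ¬ p ∣ q ∧ p % N = c % N ∧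
    a' ^ 2 + m' ^ 2 = (p : ℤ) ∧ (q : ℤ) ∣ a' - r 0 / 2 ∧ (q : ℤ) ∣ m' - m ∧ ∀ j, trace (E j) p * r 0 = 2 * a' * r j)).card

/-- The number of the primes `p ≤ x`, `p ≡ c` modulo `N`, not dividing `q`, with `a_p(E_j) = r_j` for all `j`. -/
noncomputable def countQ (E : Fin (k + 1) → ℤ × ℤ) (q N c : ℕ) (r : Fin (k + 1) → ℤ) (x : ℝ) : ℕ :=
  ((Icc 1 ⌊x⌋₊).filter (fun p => p.Prime ∧ ¬ p ∣ q ∧ p % N = c % N ∧ ∀ j, trace (E j) p = r j)).card

theorem countQ_zero {E : Fin (k + 1) → ℤ × ℤ} {q : ℕ} (hE : ∀ j, Law (E j) q) (N c : ℕ)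
    (r : Fin (k + 1) → ℤ) (x : ℝ) (hr : r 0 % 2 ≠ 0) : countQ E q N c r x = 0 := by
  unfold countQ
  rw [card_eq_zero, filter_eq_empty_iff]
  intro p _
  rintro ⟨hp, hD, -, ht⟩
  obtain ⟨a, m, -, h5⟩ := (hE 0).rep p hp hD (by rw [ht 0]; omega)
  rw [ht 0] at h5
  omega

open Classical in
theorem countQ_eq {E : Fin (k + 1) → ℤ × ℤ} {q : ℕ} (hE : ∀ j, Law (E j) q) (hq : 1 ≤ q) (N c : ℕ) (hN : N ∣ q)
    (s : Fin (k + 1) → ℤ) (hs : ∀ j, s j = 1 ∨ s j = -1) (hs0 : s 0 = 1) (a : ℤ) (x : ℝ) (hx : 0 ≤ x) (ha : a ≠ 0) :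
    countQ E q N c (fun j => s j * (2 * a)) x = ((Icc 1 ⌊Real.sqrt (x - (a : ℝ) ^ 2)⌋₊).filter
      (fun m : ℕ => (a.natAbs ^ 2 + m ^ 2).Prime ∧ HQ E s q N c a m)).card := by
  have hcast : ∀ m : ℕ, ((a.natAbs ^ 2 + m ^ 2 : ℕ) : ℤ) = a ^ 2 + (m : ℤ) ^ 2 := by
    intro m
    push_cast
    rw [sq_abs]
  have hfl : ∀ m : ℕ, 1 ≤ m → (m ≤ ⌊Real.sqrt (x - (a : ℝ) ^ 2)⌋₊ ↔ a.natAbs ^ 2 + m ^ 2 ≤ ⌊x⌋₊) := by
    intro m hm
    have hm1 : (1 : ℝ) ≤ m := by exact_mod_cast hm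
    rw [Nat.le_floor_iff (Real.sqrt_nonneg _), Nat.le_floor_iff hx, Real.le_sqrt' (by linarith)]
    have h1 : ((a.natAbs ^ 2 + m ^ 2 : ℕ) : ℝ) = (a : ℝ) ^ 2 + (m : ℝ) ^ 2 := by
      push_cast
      rw [Nat.cast_natAbs]
      push_cast
      rw [sq_abs]
    rw [h1]
    constructor
    · intro h
      linarith
    · intro h
      linarith
  have hA := adm_HQ E s hq N c
  unfold countQ
  symm
  apply card_bij (fun m _ => a.natAbs ^ 2 + m ^ 2)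
  · intro m hm
    rw [mem_filter, mem_Icc] at hm
    obtain ⟨⟨hm1, hm2⟩, hp, hH⟩ := hm
    rw [hfl m hm1] at hm2
    rw [mem_filter, mem_Icc]
    have hcop := hA.cop a m hH
    rw [← hcast m] at hcop
    have hnd : ¬ (a.natAbs ^ 2 + m ^ 2) ∣ q :=
      (Nat.Prime.coprime_iff_not_dvd hp).1 (Nat.isCoprime_iff_coprime.1 hcop)
    obtain ⟨p, u, v, h1, h2, h3, h4, h5, h6, h7⟩ := hH
    refine ⟨⟨hp.one_lt.le, hm2⟩, hp, hnd, ?_, fun j => ?_⟩
    · -- `p ≡ a² + m²` modulo `N`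
      rw [← h3]
      have hNz : (N : ℤ) ∣ (q : ℤ) := Int.natCast_dvd_natCast.2 hN
      obtain ⟨y1, hy1⟩ := hNz.trans h5
      obtain ⟨y2, hy2⟩ := hNz.trans h6
      have h8 : ((a.natAbs ^ 2 + m ^ 2 : ℕ) : ℤ) ≡ (p : ℤ) [ZMOD (N : ℤ)] := by
        apply Int.ModEq.symm
        apply Int.modEq_of_dvd ?_ |>.symm
        rw [hcast, ← h4]
        refine ⟨y1 * (u + a) + y2 * (v + m), ?_⟩
        have e1 : u ^ 2 + v ^ 2 - (a ^ 2 + (m : ℤ) ^ 2) = (u - a) * (u + a) + (v - m) * (v + m) := by ring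
        rw [e1, hy1, hy2]
        ring
      exact (Int.natCast_modEq_iff.1 h8)
    · show trace (E j) (a.natAbs ^ 2 + m ^ 2) = s j * (2 * a)
      rcases hs j with h8 | h8
      · rw [h8, one_mul]
        have h9 := h7 j
        rw [h8, one_mul] at h9
        exact (hE j).per p _ u v a m h1 hp h2 hnd h4 (hcast m).symm h5 h6 h9
      · rw [h8]
        have h9 := h7 j
        rw [h8] at h9
        have h10 := (hE j).per p (a.natAbs ^ 2 + m ^ 2) (-u) v (-a) m h1 hp h2 hnd (by rw [neg_sq]; exact h4)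
          (by rw [neg_sq]; exact (hcast m).symm) (by
            have : -u - -a = -(u - a) := by ring
            rw [this]
            exact (dvd_neg).2 h5) h6 (by linarith)
        linarith
  · intro m _ m' _ h
    have : m ^ 2 = m' ^ 2 := by
      have h1 : a.natAbs ^ 2 + m ^ 2 = a.natAbs ^ 2 + m' ^ 2 := h
      omega
    exact Nat.pow_left_injective (by norm_num) this
  · intro p hp
    rw [mem_filter, mem_Icc] at hp
    obtain ⟨⟨-, hpx⟩, hp, hD, hc, ht⟩ := hp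
    beta_reduce at ht
    have h0 := ht 0
    rw [hs0, one_mul] at h0
    obtain ⟨b, m, h1, h5⟩ := (hE 0).rep p hp hD (by rw [h0]; omega)
    have hab : b = a := by
      rw [h0] at h5
      omega
    subst hab
    have hm0 := (prime_ne_sq hp h1).1
    have hpe : b.natAbs ^ 2 + m.natAbs ^ 2 = p := by
      have h2 : ((b.natAbs ^ 2 + m.natAbs ^ 2 : ℕ) : ℤ) = (p : ℤ) := by
        push_cast
        rw [sq_abs, sq_abs]
        exact h1
      exact_mod_cast h2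
    refine ⟨m.natAbs, ?_, hpe⟩
    rw [mem_filter, mem_Icc]
    refine ⟨⟨by omega, ?_⟩, ?_, ?_⟩
    · rw [hfl _ (by omega), hpe]
      exact hpx
    · rw [hpe]
      exact hp
    · refine ⟨p, b, (m.natAbs : ℤ), hp, hD, hc, ?_, by simp, by simp, ht⟩
      have h2 : ((b.natAbs ^ 2 + m.natAbs ^ 2 : ℕ) : ℤ) = (p : ℤ) := by exact_mod_cast hpe
      push_cast at h2
      rw [sq_abs] at h2
      push_cast
      exact h2

end Pool.Agent.H533.JQ
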