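import Pool.Agent.H533.JQ.Cnt

/-!
# Project JQ (helper533): the constants
-/

set_option autoImplicit false

namespace Pool.Agent.H533.JQ

open Finset Filter Topology Pool.Agent.N782.GN Pool.Agent.N782.GN.LT Pool.Agent.H533.JT

/-- the limit of the products -/
theorem product_lim2 (Q : ℕ) (hQ : 1 ≤ Q) (r : ℤ) (hr : r % 2 = 0) (hr0 : r ≠ 0) (l : ℤ) (hl : l = ((r / 2).natAbs : ℤ)) :
    Tendsto (product Q r) atTop (𝓝 (SS l / FF Q l)) := by
  have hl0 : l ≠ 0 := by omega
  obtain ⟨hlim, hpos⟩ := c_ssl l hl0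
  set F : Finset ℕ := (4 * Q).primeFactors.filter (fun p : ℕ => p ≠ 2 ∧ ¬ (p : ℤ) ∣ l) with hF
  set f : ℕ → ℝ := fun p => 1 - ((ZMod.χ₄ (p : ZMod 4) : ℤ) : ℝ) / ((p : ℝ) - 1) with hf
  have hFpos : 0 < ∏ p ∈ F, f p := FF_pos Q l
  have hev : (fun z => pp l z / ∏ p ∈ F, f p) =ᶠ[atTop] product Q r := by
    filter_upwards [eventually_ge_atTop (4 * Q)] with z hz
    rw [div_eq_iff hFpos.ne']
    unfold pp product
    rw [← prod_union]
    · refine prod_congr ?_ (fun _ _ => rfl)
      ext p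
      simp only [hF, mem_union, mem_filter, mem_Icc, Nat.mem_primeFactors]
      have key : p.Prime → p ≠ 2 → ((p : ℤ) ∣ Q * r ↔ p ∣ Q ∨ (p : ℤ) ∣ l) := by
        intro hp hp2
        have hpz : Prime (p : ℤ) := Nat.prime_iff_prime_int.1 hp
        rw [hpz.dvd_mul, Int.natCast_dvd_natCast]
        have e1 : r = 2 * (r / 2) := by omega
        have e2 : (p : ℤ) ∣ r ↔ (p : ℤ) ∣ l := by
          rw [hl]
          have e3 : (p : ℤ) ∣ ((r / 2).natAbs : ℤ) ↔ (p : ℤ) ∣ r / 2 := by
            rw [Int.dvd_natAbs]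
          rw [e3]
          constructor
          · intro h
            rw [e1] at h
            rcases hpz.dvd_or_dvd h with h | h
            · exfalso
              have h5 : p ∣ 2 := by exact_mod_cast h
              exact hp2 ((Nat.prime_dvd_prime_iff_eq hp Nat.prime_two).1 h5)
            · exact h
          · intro h
            rw [e1]
            exact Dvd.dvd.mul_left h 2
        rw [e2]
      have key2 : p.Prime → p ≠ 2 → (p ∣ 4 * Q ↔ p ∣ Q) := by
        intro hp hp2
        rw [hp.dvd_mul]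
        constructor
        · rintro (h | h)
          · exfalso
            have h5 : p ∣ 2 ^ 2 := by simpa using h
            exact hp2 ((Nat.prime_dvd_prime_iff_eq hp Nat.prime_two).1 (hp.dvd_of_dvd_pow h5))
          · exact h
        · exact Or.inr
      constructor
      · rintro ⟨⟨h3, hz3⟩, hp, hl3⟩
        have hp2 : p ≠ 2 := by omega
        by_cases hd : p ∣ Q
        · right
          exact ⟨⟨hp, (key2 hp hp2).2 hd, by omega⟩, hp2, hl3⟩
        · left
          refine ⟨⟨h3, hz3⟩, hp, ?_⟩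
          rw [key hp hp2]
          tauto
      · rintro (⟨⟨h3, hz3⟩, hp, hd⟩ | ⟨⟨hp, hd, -⟩, hp2, hl3⟩)
        · have hp2 : p ≠ 2 := by omega
          rw [key hp hp2] at hd
          exact ⟨⟨h3, hz3⟩, hp, fun h => hd (Or.inr h)⟩
        · have h5 := hp.two_le
          have h6 : p ≤ 4 * Q := Nat.le_of_dvd (by omega) hd
          exact ⟨⟨by omega, by omega⟩, hp, hl3⟩
    · rw [disjoint_left]
      intro p hp1 hp2
      simp only [hF, mem_filter, mem_Icc, Nat.mem_primeFactors] at hp1 hp2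
      obtain ⟨-, hp, hd⟩ := hp1
      obtain ⟨⟨-, hd4, -⟩, hp3, -⟩ := hp2
      apply hd
      have h5 : p ∣ Q := by
        rcases (hp.dvd_mul).1 hd4 with h | h
        · exfalso
          have h5 : p ∣ 2 ^ 2 := by simpa using h
          exact hp3 ((Nat.prime_dvd_prime_iff_eq hp Nat.prime_two).1 (hp.dvd_of_dvd_pow h5))
        · exact h
      exact Dvd.dvd.mul_right (Int.natCast_dvd_natCast.2 h5) r
  exact Tendsto.congr' hev (hlim.div_const _)

variable {k : ℕ}

/-- the constant in the engine -/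
theorem sHQ_eq (E : Fin (k + 1) → ℤ × ℤ) (Q N c : ℕ) (hQ1 : 1 ≤ Q) (s : Fin (k + 1) → ℤ)
    (hs0 : s 0 = 1) (a l : ℤ) (ha : a ≠ 0) (σ : ℤ) (hσ : σ * l = a) :
    sH (4 * Q) (HQ E s (4 * Q) N c) σ l = (classesQ E (4 * Q) N c (fun j => s j * (2 * a)) : ℝ) /
      (Nat.totient (4 * Q) : ℝ) * (SS l / FF Q l) := by
  classical
  have hcard : (clH (4 * Q) (HQ E s (4 * Q) N c) (σ * l)).card = classesQ E (4 * Q) N c (fun j => s j * (2 * a)) := by
    unfold clH classesQ
    rw [hσ]
    apply congrArg Finset.card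
    ext m
    simp only [mem_filter, mem_range]
    refine and_congr_right fun _ => ?_
    rw [hs0, one_mul]
    have e1 : 2 * a / 2 = a := by omega
    have e2 : 2 * a % 2 = 0 := by omega
    rw [e1]
    unfold HQ
    constructor
    · rintro ⟨p, u, v, h1, h2, h3, h4, h5, h6, h7⟩
      refine ⟨e2, p, u, v, h1, h2, h3, h4, h5, h6, fun j => ?_⟩
      rw [h7 j]
      ring
    · rintro ⟨-, p, u, v, h1, h2, h3, h4, h5, h6, h7⟩
      refine ⟨p, u, v, h1, h2, h3, h4, h5, h6, fun j => ?_⟩
      have h8 : trace (E j) p * (2 * a) = (s j * (2 * u)) * (2 * a) := by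
        rw [h7 j]
        ring
      exact mul_right_cancel₀ (by omega) h8
  unfold sH
  rw [hcard]
  have h4Q : (0 : ℝ) < ((4 * Q : ℕ) : ℝ) := by
    have : 0 < 4 * Q := by omega
    exact_mod_cast this
  have hφ : (0 : ℝ) < (Nat.totient (4 * Q) : ℝ) := by
    have : 0 < Nat.totient (4 * Q) := Nat.totient_pos.2 (by omega)
    exact_mod_cast this
  have hF := FF_pos Q l
  have hgq : gq (4 * Q) l = ((4 * Q : ℕ) : ℝ) / (Nat.totient (4 * Q) : ℝ) / FF Q l := rfl
  rw [hgq]
  field_simp

end Pool.Agent.H533.JQ
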