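import Pool.Agent.H533.JQ.Stm

set_option autoImplicit false

namespace Pool.Agent.H533.JQ.DIV

open Finset

theorem sum0 (p : ℕ) [Fact p.Prime] (k j : ℕ) (h : k + j < p - 1) :
    ∑ x : ZMod p, x ^ k * (1 - x) ^ j = 0 := by
  have h1 : ∀ x : ZMod p, x ^ k * (1 - x) ^ j =
      ∑ i ∈ range (j + 1), ((-1) ^ i * (j.choose i : ZMod p)) * x ^ (k + i) := by
    intro x
    rw [sub_eq_add_neg, add_comm, add_pow, Finset.mul_sum]
    refine Finset.sum_congr rfl fun i _ => ?_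
    rw [neg_pow, one_pow, pow_add]
    ring
  simp_rw [h1]
  rw [Finset.sum_comm]
  refine Finset.sum_eq_zero fun i hi => ?_
  rw [← Finset.mul_sum, FiniteField.sum_pow_lt_card_sub_one, mul_zero]
  rw [ZMod.card]
  have := Finset.mem_range.1 hi
  omega

theorem pi_dvd_p (p : ℕ) (a m : ℤ) (h : a ^ 2 + m ^ 2 = (p : ℤ)) : gz a m ∣ (p : ZI) := by
  refine ⟨gz a (-m), ?_⟩
  ext
  · simp [gz]
    nlinarith
  · simp [gz]
    ring

theorem pi_dvd_int (p : ℕ) [Fact p.Prime] (a m : ℤ) (h : a ^ 2 + m ^ 2 = (p : ℤ)) (N : ℤ)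
    (hN : (N : ZMod p) = 0) : gz a m ∣ (N : ZI) := by
  rw [ZMod.intCast_zmod_eq_zero_iff_dvd] at hN
  obtain ⟨c, rfl⟩ := hN
  push_cast
  exact Dvd.dvd.mul_right (pi_dvd_p p a m h) _

theorem t_DIV : S_DIV := by
  intro p _ a m χ hP hQ
  have hp := hP.pr
  have hp4 : p % 4 = 1 := by
    have h1 := hP.rep
    have h2 := hP.odd
    have h3 := hP.even
    obtain ⟨u, hu⟩ : ∃ u, a = 2 * u + 1 := ⟨a / 2, by omega⟩
    obtain ⟨v, hv⟩ : ∃ v, m = 2 * v := ⟨m / 2, by omega⟩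
    have h4 : (p : ℤ) = 4 * (u ^ 2 + u + v ^ 2) + 1 := by
      rw [← h1, hu, hv]; ring
    omega
  have hp1 := hp.one_lt
  have hk : 0 < (p - 1) / 4 := by omega
  have hcard : Fintype.card (ZMod p) = p := ZMod.card p
  have hA : ∀ x : ZMod p, gz a m ∣ ((((x.val : ℤ)) : ZI)) ^ ((p - 1) / 4) - χ x := by
    intro x
    by_cases hx : x = 0
    · subst hx
      rw [MulChar.map_zero, ZMod.val_zero]
      simp [hk.ne']
    · have h1 := hQ.cong (x.val : ℤ) (by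
        intro h
        rw [← ZMod.intCast_zmod_eq_zero_iff_dvd] at h
        apply hx
        simpa using h)
      have h2 : (((x.val : ℤ)) : ZMod p) = x := by simp
      rwa [h2] at h1
  have hB : ∀ x : ZMod p, gz a m ∣ (((1 - (x.val : ℤ) : ℤ) : ZI)) ^ (p / 2) - q2 p (1 - x) := by
    intro x
    have h1 : q2 p (1 - x) = ((quadraticChar (ZMod p) (1 - x) : ℤ) : ZI) := by
      simp [q2]
    rw [h1]
    have h2 : gz a m ∣ (((1 - (x.val : ℤ)) ^ (p / 2) - quadraticChar (ZMod p) (1 - x) : ℤ) : ZI) := by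
      refine pi_dvd_int p a m hP.rep _ ?_
      push_cast
      have h3 : ringChar (ZMod p) ≠ 2 := by
        rw [ZMod.ringChar_zmod_n]; omega
      rw [quadraticChar_eq_pow_of_char_ne_two' h3, hcard]
      simp
    push_cast at h2 ⊢
    exact h2
  have hS : gz a m ∣ ∑ x : ZMod p, ((((x.val : ℤ)) : ZI)) ^ ((p - 1) / 4) *
      (((1 - (x.val : ℤ) : ℤ) : ZI)) ^ (p / 2) := by
    have h1 := pi_dvd_int p a m hP.rep
      (∑ x : ZMod p, (x.val : ℤ) ^ ((p - 1) / 4) * (1 - (x.val : ℤ)) ^ (p / 2)) (by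
        push_cast
        have h2 := sum0 p ((p - 1) / 4) (p / 2) (by omega)
        rw [← h2]
        refine Finset.sum_congr rfl fun x _ => ?_
        simp)
    push_cast at h1 ⊢
    exact h1
  have hD : gz a m ∣ ∑ x : ZMod p, (((((x.val : ℤ)) : ZI)) ^ ((p - 1) / 4) *
      (((1 - (x.val : ℤ) : ℤ) : ZI)) ^ (p / 2) - χ x * q2 p (1 - x)) := by
    refine Finset.dvd_sum fun x _ => ?_
    have h1 : ((((x.val : ℤ)) : ZI)) ^ ((p - 1) / 4) *
      (((1 - (x.val : ℤ) : ℤ) : ZI)) ^ (p / 2) - χ x * q2 p (1 - x) =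
      (((((x.val : ℤ)) : ZI)) ^ ((p - 1) / 4) - χ x) * (((1 - (x.val : ℤ) : ℤ) : ZI)) ^ (p / 2) +
        χ x * ((((1 - (x.val : ℤ) : ℤ) : ZI)) ^ (p / 2) - q2 p (1 - x)) := by ring
    rw [h1]
    exact dvd_add (Dvd.dvd.mul_right (hA x) _) (Dvd.dvd.mul_left (hB x) _)
  rw [Finset.sum_sub_distrib] at hD
  have h := dvd_sub hS hD
  rw [sub_sub_cancel] at h
  exact h

end Pool.Agent.H533.JQ.DIV
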