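import Pool.Agent.H533.JQ.Stm

/-!
# The value of the quartic character at 2 (task JQ-TWO of helper533, by helper30)
-/

set_option autoImplicit false

namespace Pool.Agent.H533.JQ.TWO

open Pool.Agent.H533.JQ

theorem gi_sq : gi ^ 2 = -1 := by
  rw [pow_two]
  rfl

theorem roots {u : ZI} (h : u ^ 4 = 1) : u = 1 ∨ u = -1 ∨ u = gi ∨ u = -gi := by
  have h1 : (u - 1) * ((u + 1) * ((u - gi) * (u + gi))) = 0 := by
    have e : (u - 1) * ((u + 1) * ((u - gi) * (u + gi))) = (u ^ 2 - 1) * (u ^ 2 - gi ^ 2) := by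
      ring
    rw [e, gi_sq]
    linear_combination h
  rcases mul_eq_zero.1 h1 with h2 | h2
  · left; exact sub_eq_zero.1 h2
  rcases mul_eq_zero.1 h2 with h3 | h3
  · right; left; exact eq_neg_of_add_eq_zero_left h3
  rcases mul_eq_zero.1 h3 with h4 | h4
  · right; right; left; exact sub_eq_zero.1 h4
  · right; right; right; exact eq_neg_of_add_eq_zero_left h4

theorem sep {p : ℕ} [Fact p.Prime] (hp : 5 ≤ p) (φ : ZI →+* ZMod p) {u v : ZI} (hu : u ^ 4 = 1)
    (hv : v ^ 4 = 1) (h : φ u = φ v) : u = v := by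
  have h1 : (p : ℤ) ∣ Zsqrtd.norm (u - v) := by
    have h2 : ((Zsqrtd.norm (u - v) : ℤ) : ZI) = (u - v) * star (u - v) :=
      Zsqrtd.norm_eq_mul_conj _
    have h3 : φ ((Zsqrtd.norm (u - v) : ℤ) : ZI) = 0 := by
      rw [h2, map_mul, map_sub, h, sub_self, zero_mul]
    rw [map_intCast] at h3
    exact (ZMod.intCast_zmod_eq_zero_iff_dvd _ _).1 h3
  have key : ∀ k : ℤ, 0 < k → k < 5 → Zsqrtd.norm (u - v) = k → False := by
    intro k hk1 hk2 hk
    rw [hk] at h1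
    have := Int.le_of_dvd hk1 h1
    omega
  rcases roots hu with rfl | rfl | rfl | rfl <;> rcases roots hv with rfl | rfl | rfl | rfl <;>
    first
    | rfl
    | exact (key 2 (by norm_num) (by norm_num) (by decide)).elim
    | exact (key 4 (by norm_num) (by norm_num) (by decide)).elim

theorem jac_neg {p : ℕ} (hp : p % 4 = 1) (x : ℤ) : jacobiSym (-x) p = jacobiSym x p := by
  have hodd : Odd p := Nat.odd_iff.2 (by omega)
  rw [jacobiSym.neg x hodd, ZMod.χ₄_nat_one_mod_four hp, one_mul]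

theorem jac_natAbs {p : ℕ} (hp : p % 4 = 1) (x : ℤ) :
    jacobiSym x p = jacobiSym (x.natAbs : ℤ) p := by
  rcases Int.natAbs_eq x with h | h
  · conv_lhs => rw [h]
  · conv_lhs => rw [h]
    exact jac_neg hp _

section

variable {p : ℕ} {a m : ℤ}

theorem mod4 (h : PD p a m) : p % 4 = 1 := by
  obtain ⟨k, hk⟩ : ∃ k, a = 2 * k + 1 := ⟨a / 2, by have := h.odd; omega⟩
  obtain ⟨l, hl⟩ : ∃ l, m = 2 * l := ⟨m / 2, by have := h.even; omega⟩
  have h1 := h.rep
  have h2 : (p : ℤ) = 4 * (k ^ 2 + k + l ^ 2) + 1 := by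
    rw [← h1, hk, hl]; ring
  omega

theorem mod8_0 (h : PD p a m) (h4 : m % 4 = 0) : p % 8 = 1 := by
  obtain ⟨k, hk⟩ : ∃ k, a = 2 * k + 1 := ⟨a / 2, by have := h.odd; omega⟩
  obtain ⟨l, hl⟩ : ∃ l, m = 4 * l := ⟨m / 4, by omega⟩
  obtain ⟨t, ht⟩ := Int.even_mul_succ_self k
  have h1 := h.rep
  have h2 : (p : ℤ) = 4 * (k * (k + 1)) + 8 * (2 * l ^ 2) + 1 := by
    rw [← h1, hk, hl]; ring
  rw [ht] at h2
  omega

theorem mod8_2 (h : PD p a m) (h4 : m % 4 = 2) : p % 8 = 5 := by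
  obtain ⟨k, hk⟩ : ∃ k, a = 2 * k + 1 := ⟨a / 2, by have := h.odd; omega⟩
  obtain ⟨l, hl⟩ : ∃ l, m = 4 * l + 2 := ⟨m / 4, by omega⟩
  obtain ⟨t, ht⟩ := Int.even_mul_succ_self k
  have h1 := h.rep
  have h2 : (p : ℤ) = 4 * (k * (k + 1)) + 8 * (2 * l ^ 2 + 2 * l) + 5 := by
    rw [← h1, hk, hl]; ring
  rw [ht] at h2
  omega

theorem copr (h : PD p a m) {d : ℕ} (h1 : (d : ℤ) ∣ a) (h2 : (d : ℤ) ∣ m) : d = 1 := by
  have h3 : (d : ℤ) * d ∣ (p : ℤ) := by
    rw [← h.rep, pow_two, pow_two]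
    exact dvd_add (mul_dvd_mul h1 h1) (mul_dvd_mul h2 h2)
  have h4 : d * d ∣ p := by exact_mod_cast h3
  exact Nat.isUnit_iff.1 (h.pr.prime.squarefree d h4)

theorem partA [Fact p.Prime] (h : PD p a m) : legendreSym p (m - a) = jacobiSym 2 (a - m).natAbs := by
  have hp4 := mod4 h
  rw [jacobiSym.legendreSym.to_jacobiSym, jac_natAbs hp4]
  have hb : (m - a).natAbs = (a - m).natAbs := by rw [← Int.natAbs_neg, neg_sub]
  rw [hb]
  have hdvd : (((a - m).natAbs : ℕ) : ℤ) ∣ a - m := Int.natAbs_dvd.2 dvd_rfl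
  have hbodd : Odd (a - m).natAbs := by
    rw [Int.natAbs_odd, Int.odd_iff]
    have := h.odd
    have := h.even
    omega
  set b := (a - m).natAbs with hbdef
  rw [← jacobiSym.quadratic_reciprocity_one_mod_four hp4 hbodd]
  have h1 : jacobiSym (p : ℤ) b = jacobiSym (2 * a ^ 2) b := by
    apply jacobiSym.mod_left'
    have h0 : (p : ℤ) ≡ 2 * a ^ 2 [ZMOD (b : ℤ)] :=
      Int.modEq_iff_dvd.2 (hdvd.trans ⟨a + m, by rw [← h.rep]; ring⟩)
    exact h0
  rw [h1, jacobiSym.mul_left, jacobiSym.sq_one', mul_one]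
  have h2 : ((Int.gcd a b : ℕ) : ℤ) ∣ a := Int.gcd_dvd_left _ _
  have h3 : ((Int.gcd a b : ℕ) : ℤ) ∣ (b : ℤ) := Int.gcd_dvd_right _ _
  refine copr h h2 ?_
  have h4 := dvd_sub h2 (h3.trans hdvd)
  rwa [sub_sub_cancel] at h4

theorem m_ne (h : PD p a m) : m ≠ 0 := by
  rintro rfl
  have h1 : a.natAbs = 1 := copr h (Int.natAbs_dvd.2 dvd_rfl) (dvd_zero _)
  have h2 : a ^ 2 = 1 := by rw [← Int.natAbs_sq, h1]; norm_num
  have h3 := h.rep
  have h4 := h.pr.two_le
  rw [h2] at h3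
  omega

theorem partB [Fact p.Prime] (h : PD p a m) : legendreSym p m = (-1) ^ (m / 2).natAbs := by
  have hp4 := mod4 h
  have hpo : Odd p := Nat.odd_iff.2 (by omega)
  rw [jacobiSym.legendreSym.to_jacobiSym, jac_natAbs hp4]
  have hm0 : m.natAbs ≠ 0 := Int.natAbs_ne_zero.2 (m_ne h)
  obtain ⟨k, m₁, hm1, hk⟩ := Nat.exists_eq_two_pow_mul_odd hm0
  have hdvd : (m₁ : ℤ) ∣ m := by
    rw [← Int.dvd_natAbs, hk]
    push_cast
    exact dvd_mul_left _ _
  have h1 : jacobiSym (m₁ : ℤ) p = 1 := by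
    rw [← jacobiSym.quadratic_reciprocity_one_mod_four hp4 hm1]
    have h2 : jacobiSym (p : ℤ) m₁ = jacobiSym (a ^ 2) m₁ := by
      apply jacobiSym.mod_left'
      have h0 : (p : ℤ) ≡ a ^ 2 [ZMOD (m₁ : ℤ)] :=
        Int.modEq_iff_dvd.2 (hdvd.trans ⟨-m, by rw [← h.rep]; ring⟩)
      exact h0
    rw [h2, jacobiSym.sq_one']
    exact copr h (Int.gcd_dvd_left _ _) ((Int.gcd_dvd_right _ _).trans hdvd)
  have h2 : jacobiSym (m.natAbs : ℤ) p = jacobiSym 2 p ^ k := by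
    rw [hk]
    push_cast
    rw [jacobiSym.mul_left, jacobiSym.pow_left, h1, mul_one]
  rw [h2, jacobiSym.at_two hpo, ZMod.χ₈_nat_eq_if_mod_eight]
  have he := h.even
  have h3 : m % 4 = 0 ∨ m % 4 = 2 := by omega
  rcases h3 with h3 | h3
  · have h8 := mod8_0 h h3
    rw [if_neg (by omega), if_pos (Or.inl h8), one_pow]
    have h5 : Even (m / 2).natAbs := by
      rw [Int.natAbs_even, Int.even_iff]
      omega
    rw [h5.neg_one_pow]
  · have h8 := mod8_2 h h3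
    rw [if_neg (by omega), if_neg (by omega)]
    have h5 : Odd (m / 2).natAbs := by
      rw [Int.natAbs_odd, Int.odd_iff]
      omega
    rw [h5.neg_one_pow]
    have h6 : k = 1 := by
      rcases k with _ | _ | k
      · rw [pow_zero, one_mul] at hk
        rw [Nat.odd_iff] at hm1
        omega
      · rfl
      · exfalso
        have h7 : 4 ∣ m.natAbs := ⟨2 ^ k * m₁, by rw [hk]; ring⟩
        omega
    rw [h6, pow_one]

theorem m_ne_mod [Fact p.Prime] (h : PD p a m) : (m : ZMod p) ≠ 0 := by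
  intro h0
  have h1 : (p : ℤ) ∣ m := (ZMod.intCast_zmod_eq_zero_iff_dvd _ _).1 h0
  have h2 : (p : ℤ) ∣ a ^ 2 := by
    have h3 : a ^ 2 = (p : ℤ) - m * m := by rw [← h.rep]; ring
    rw [h3]
    exact dvd_sub dvd_rfl (h1.mul_left _)
  have h3 : (p : ℤ) ∣ a := (Nat.prime_iff_prime_int.1 h.pr).dvd_of_dvd_pow h2
  have h4 := copr h h3 h1
  have := h.pr.two_le
  omega

end

theorem t_TWO : S_TWO := by
  intro p _ a m χ h hq
  have hp4 := mod4 h
  have hp5 : 5 ≤ p := by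
    have := h.pr.two_le
    omega
  have hm := m_ne_mod h
  have h2ne : (2 : ZMod p) ≠ 0 := by
    intro h0
    have h1 : ((2 : ℤ) : ZMod p) = 0 := by exact_mod_cast h0
    have h2 := Int.le_of_dvd (by norm_num) ((ZMod.intCast_zmod_eq_zero_iff_dvd _ _).1 h1)
    omega
  have hrep : (a : ZMod p) ^ 2 = -(m : ZMod p) ^ 2 := by
    have h1 : ((a ^ 2 + m ^ 2 : ℤ) : ZMod p) = 0 := by
      rw [h.rep]
      simp
    push_cast at h1
    linear_combination h1
  obtain ⟨ρ, hρd⟩ : ∃ ρ : ZMod p, ρ = -(a : ZMod p) * (m : ZMod p)⁻¹ := ⟨_, rfl⟩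
  have hρm : ρ * m = -a := by rw [hρd]; field_simp
  have hρ1 : ρ * ρ = -1 := by
    have h1 : ρ * ρ * (m : ZMod p) ^ 2 = -1 * (m : ZMod p) ^ 2 := by
      linear_combination (ρ * m - a) * hρm + hrep
    exact mul_right_cancel₀ (pow_ne_zero 2 hm) h1
  have hρ : ρ * ρ = ((-1 : ℤ) : ZMod p) := by rw [hρ1]; push_cast; rfl
  obtain ⟨φ, hφ⟩ : ∃ φ : ZI →+* ZMod p, ∀ z : ZI, φ z = (z.re : ZMod p) + (z.im : ZMod p) * ρ :=
    ⟨Zsqrtd.lift ⟨ρ, hρ⟩, fun z => rfl⟩
  have hφi : φ gi = ρ := by rw [hφ]; simp [gi]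
  have hφπ : φ (gz a m) = 0 := by
    rw [hφ]
    simp only [gz]
    rw [mul_comm, hρm]
    ring
  obtain ⟨N, hN⟩ : ∃ N, N = (p - 1) / 4 := ⟨_, rfl⟩
  have hpN : p / 2 = 2 * N := by omega
  have h2 : φ (χ 2) = (2 : ZMod p) ^ N := by
    have h1 := hq.cong 2 (by
      intro h0
      have := Int.le_of_dvd (by norm_num) h0
      omega)
    obtain ⟨w, hw⟩ := h1
    have h3 := congrArg φ hw
    rw [map_mul, hφπ, zero_mul, map_sub, map_pow] at h3
    have h4 := sub_eq_zero.1 h3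
    rw [map_intCast] at h4
    push_cast at h4
    rw [hN, ← h4]
  -- the computation of the power
  have hL : (2 : ZMod p) ^ N = (-ρ) ^ N * ((legendreSym p (m - a) * legendreSym p m : ℤ) : ZMod p) := by
    have h3 : (2 : ZMod p) = -ρ * (1 + ρ) ^ 2 := by linear_combination (2 + ρ) * hρ1
    have h4 : (1 + ρ) * (m : ZMod p) = ((m - a : ℤ) : ZMod p) := by
      push_cast
      linear_combination hρm
    have h5 : (1 + ρ) ^ (p / 2) * ((legendreSym p m : ℤ) : ZMod p) =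
        ((legendreSym p (m - a) : ℤ) : ZMod p) := by
      rw [legendreSym.eq_pow, legendreSym.eq_pow, ← h4, mul_pow]
    have h6 : ((legendreSym p m : ℤ) : ZMod p) * ((legendreSym p m : ℤ) : ZMod p) = 1 := by
      have h7 := legendreSym.sq_one p hm
      rw [← Int.cast_mul, ← pow_two, h7]
      exact Int.cast_one
    calc (2 : ZMod p) ^ N = (-ρ * (1 + ρ) ^ 2) ^ N := by rw [← h3]
      _ = (-ρ) ^ N * (1 + ρ) ^ (p / 2) := by rw [mul_pow, ← pow_mul, hpN]
      _ = (-ρ) ^ N * ((legendreSym p (m - a) * legendreSym p m : ℤ) : ZMod p) := by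
        push_cast
        rw [← h5, mul_assoc, h6, mul_one]
  apply sep hp5 φ (hq.four 2 h2ne)
  · have e1 : jacobiSym 2 (a - m).natAbs = 1 ∨ jacobiSym 2 (a - m).natAbs = -1 := by
      rw [← partA h]
      have h0 : ((m - a : ℤ) : ZMod p) ≠ 0 := by
        intro h0
        have h1 : (m : ZMod p) = a := by
          push_cast at h0
          exact sub_eq_zero.1 h0
        rw [← h1] at hrep
        have h3 : 2 * (m : ZMod p) ^ 2 = 0 := by linear_combination hrep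
        rcases mul_eq_zero.1 h3 with h4 | h4
        · exact h2ne h4
        · exact pow_ne_zero 2 hm h4
      exact legendreSym.eq_one_or_neg_one p h0
    have e2 : ((jacobiSym 2 (a - m).natAbs : ℤ) : ZI) ^ 4 = 1 := by
      rcases e1 with e | e <;> rw [e] <;> norm_num
    have e3 : (-gi) ^ 4 = (1 : ZI) := by
      have : (-gi) ^ 4 = (gi ^ 2) ^ 2 := by ring
      rw [this, gi_sq]
      norm_num
    rw [mul_pow, mul_pow, e2, mul_one, ← pow_mul, mul_comm _ 4, pow_mul, e3, one_pow, one_mul,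
      ← pow_mul, mul_comm _ 4, pow_mul]
    norm_num
  · rw [h2, hL, partA h, partB h, map_mul, map_mul, map_pow, map_pow, map_neg, hφi, map_neg,
      map_one, map_intCast, ← hN]
    push_cast
    ring

end Pool.Agent.H533.JQ.TWO
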