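import Pool.Agent.H533.JQ.Law
import Pool.Agent.H533.JQ.TWO
import Pool.Agent.H533.JQ.Main

/-!
# Project JQ (helper533): all curves with complex multiplication by `ℤ[i]` or `ℤ[2i]`
-/

set_option autoImplicit false

namespace Pool.Agent.H533.JQ

open Finset Pool.Agent.N782.GN Pool.Agent.N782.GN.LT Pool.Agent.H304R2.EC Pool.Agent.H304R2.EC.Pts Pool.Agent.H533.JT

/-- `E : y² = x³ + A x + B` is `y² = x³ - D x` (`j = 1728`) or `y² = x³ - 11 D² x + 14 D³` (`j = 287496`), `D ≠ 0`. -/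
def CM (E : ℤ × ℤ) (D : ℤ) : Prop := D ≠ 0 ∧ (E = (-D, 0) ∨ E = (-11 * D ^ 2, 14 * D ^ 3))

/-- the law for the quadratic twists -/
theorem law_gauss {E : ℤ × ℤ} {D : ℕ} (hE : Gauss E D) : Law E (4 * D) := by
  have hD1 := hE.1
  have hbase : ∀ p : ℕ, p.Prime → ¬ p ∣ 4 * D → p ≠ 2 ∧ ¬ p ∣ D ∧ ¬ p ∣ 2 * D := by
    intro p hp hq
    refine ⟨?_, fun h => hq (Dvd.dvd.mul_left h 4), ?_⟩
    · rintro rfl
      exact hq ⟨2 * D, by ring⟩
    · rintro ⟨u, hu⟩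
      exact hq ⟨2 * u, by linarith⟩
  have htr : ∀ p : ℕ, p.Prime → ¬ p ∣ 4 * D → trace E p = tr D p := by
    intro p hp hq
    have : Fact p.Prime := ⟨hp⟩
    obtain ⟨h2, h3, -⟩ := hbase p hp hq
    rw [trace_eq ISO.iso hE h2 h3, tr_eq D h2 h3]
  refine ⟨?_, ?_⟩
  · intro p hp hq ht
    rw [htr p hp hq] at ht ⊢
    obtain ⟨a, m, h1, -, -, -, h5⟩ := exists_rep_of_trace D hp (hbase p hp hq).2.2 ht
    exact ⟨a, m, h1, h5⟩
  · intro p p' a m a' m' hp hp' hq hq' h1 h2 ha hm ht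
    obtain ⟨g1, g2, -⟩ := hbase p hp hq
    obtain ⟨g1', g2', -⟩ := hbase p' hp' hq'
    rw [htr p hp hq] at ht
    rw [htr p' hp' hq']
    rcases parity hp g1 h1 with ⟨p1, p2⟩ | ⟨p1, p2⟩
    · obtain ⟨k1, k2, k3, k4⟩ := jac_congr (D := D) ha hm p1 p2
      have e1 := (tr_iff D hp h1 p1 p2 g2).1 ht
      have n1 : (a ^ 2 + m ^ 2).natAbs = p := by
        rw [h1, Int.natAbs_natCast]
      have n2 : (a' ^ 2 + m' ^ 2).natAbs = p' := by
        rw [h2, Int.natAbs_natCast]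
      rw [n1, n2] at k3
      apply (tr_iff D hp' h2 k1 k2 g2').2
      rw [k3, k4, e1]
    · -- the trace is twice an odd number
      exfalso
      have : Fact p.Prime := ⟨hp⟩
      obtain ⟨b, n, hb, b1, b2, -, b3⟩ := exists_rep_of_trace D hp (hbase p hp hq).2.2 (by
        rw [ht]
        have := (prime_ne_sq hp h1).2
        omega)
      rw [ht] at b3
      omega

theorem law_CM {E : ℤ × ℤ} {D : ℤ} (hE : CM E D) : Law E (16 * D.natAbs) := by
  obtain ⟨hD, h | h⟩ := hE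
  · rw [h]
    exact law_quartic TWO.t_TWO hD
  · have h1 : Gauss E D.natAbs := by
      refine ⟨by omega, Or.inr (Or.inr ⟨?_, ?_⟩)⟩
      · rw [h]
        simp only
        rw [Int.natCast_natAbs, sq_abs]
      · rw [h]
        simp only
        rw [Int.natCast_natAbs]
        rcases le_or_gt 0 D with h0 | h0
        · left
          rw [abs_of_nonneg h0]
        · right
          rw [abs_of_neg h0]
          ring
    exact (law_gauss h1).mul ⟨4, by ring⟩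

variable {k : ℕ}

theorem main_CM {E : Fin (k + 1) → ℤ × ℤ} {D : Fin (k + 1) → ℤ} (hE : ∀ j, CM (E j) (D j)) {N : ℕ} (hN : 1 ≤ N)
    (ε : ℝ) (A : ℕ) (hε : 0 < ε) : ∃ R₀ : ℝ, ∀ R : ℝ, R₀ ≤ R →
    (exceptionsQ E (4 * (N * ∏ j, (D j).natAbs)) N ε A R : ℝ) ≤ R / Real.log R ^ A := by
  have hP : 1 ≤ ∏ j, (D j).natAbs := Nat.one_le_iff_ne_zero.2 (prod_ne_zero_iff.2 fun j _ => by
    have := (hE j).1
    omega)
  have hQ : 1 ≤ N * ∏ j, (D j).natAbs := Nat.one_le_iff_ne_zero.2 (Nat.mul_ne_zero (by omega) (by omega))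
  refine main (by omega) (fun j => (law_CM (hE j)).mul ?_) hN ?_ ε A hε
  · have h1 : (D j).natAbs ∣ N * ∏ j, (D j).natAbs :=
      Dvd.dvd.mul_left (dvd_prod_of_mem (fun j => (D j).natAbs) (mem_univ j)) N
    obtain ⟨u, hu⟩ := h1
    rw [hu]
    exact ⟨u, by ring⟩
  · exact ⟨16 * ∏ j, (D j).natAbs, by ring⟩

end Pool.Agent.H533.JQ
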