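import Pool.Agent.H533.JQ.Stm

/-!
Project JQ, lemma GSF (helper370): Gauss sums of the quartic character in characteristic `ℓ`.
-/

set_option autoImplicit false

namespace Pool.Agent.H533.JQ.GSF

open Finset

theorem p_mod {p : ℕ} {a m : ℤ} (h : PD p a m) : p % 4 = 1 := by
  have h1 := h.rep
  have h2 := h.odd
  have h3 := h.even
  obtain ⟨k, hk⟩ : ∃ k, a = 2 * k + 1 := ⟨a / 2, by omega⟩
  obtain ⟨l, hl⟩ : ∃ l, m = 2 * l := ⟨m / 2, by omega⟩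
  have h4 : (p : ℤ) = 4 * (k ^ 2 + k + l ^ 2) + 1 := by rw [← h1, hk, hl]; ring
  omega

theorem gz_norm {p : ℕ} {a m : ℤ} (h : PD p a m) : Zsqrtd.norm (gz a m) = (p : ℤ) := by
  rw [← h.rep]
  simp only [Zsqrtd.norm, gz]
  ring

theorem gz_dvd {p : ℕ} {a m : ℤ} (h : PD p a m) : gz a m ∣ (p : ZI) := by
  refine ⟨star (gz a m), ?_⟩
  have h1 := Zsqrtd.norm_eq_mul_conj (gz a m)
  rw [gz_norm h] at h1
  rw [← h1]
  simp

theorem not_dvd_two {p : ℕ} {a m : ℤ} (h : PD p a m) : ¬ gz a m ∣ (2 : ZI) := by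
  intro hd
  have h1 : Zsqrtd.norm (gz a m) ∣ Zsqrtd.norm (2 : ZI) := map_dvd Zsqrtd.normMonoidHom hd
  rw [gz_norm h] at h1
  have h2 : Zsqrtd.norm (2 : ZI) = 4 := by
    rfl
  rw [h2] at h1
  have h3 : p ∣ 4 := by exact_mod_cast h1
  have h4 : p ∣ 2 := h.pr.dvd_of_dvd_pow (n := 2) (by simpa using h3)
  have h5 := Nat.le_of_dvd (by norm_num) h4
  have h6 := p_mod h
  have h7 := h.pr.two_le
  omega

theorem dvd_cast {p : ℕ} {a m : ℤ} (h : PD p a m) {z : ℤ} (hz : (p : ℤ) ∣ z) :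
    gz a m ∣ (z : ZI) := by
  refine (gz_dvd h).trans ?_
  obtain ⟨k, rfl⟩ := hz
  exact ⟨(k : ZI), by push_cast; rfl⟩

theorem sq_eq {p : ℕ} [Fact p.Prime] {a m : ℤ} {χ : MulChar (ZMod p) ZI} (h : PD p a m)
    (hχ : QC p a m χ) (x : ZMod p) (hx : x ≠ 0) : χ x ^ 2 = q2 p x := by
  have hp4 := p_mod h
  have hp2 : ringChar (ZMod p) ≠ 2 := by
    rw [ZMod.ringChar_zmod_n]
    omega
  set n : ℤ := (x.val : ℤ) with hn
  have hnx : (n : ZMod p) = x := by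
    rw [hn]
    simp
  have hnd : ¬ (p : ℤ) ∣ n := by
    intro hd
    apply hx
    rw [← hnx]
    exact (ZMod.intCast_zmod_eq_zero_iff_dvd n p).2 hd
  have h1 := hχ.cong n hnd
  rw [hnx] at h1
  have h2 : gz a m ∣ ((n : ZI) ^ ((p - 1) / 4)) ^ 2 - χ x ^ 2 := by
    have e : ((n : ZI) ^ ((p - 1) / 4)) ^ 2 - χ x ^ 2 =
      ((n : ZI) ^ ((p - 1) / 4) - χ x) * ((n : ZI) ^ ((p - 1) / 4) + χ x) := by ring
    rw [e]
    exact Dvd.dvd.mul_right h1 _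
  have h3 : (p : ℤ) ∣ n ^ (p / 2) - quadraticChar (ZMod p) x := by
    rw [← ZMod.intCast_zmod_eq_zero_iff_dvd]
    push_cast
    rw [hnx, quadraticChar_eq_pow_of_char_ne_two' hp2, ZMod.card, sub_self]
  have h4 : gz a m ∣ (n : ZI) ^ (p / 2) - q2 p x := by
    have h5 := dvd_cast h h3
    have e : ((n ^ (p / 2) - quadraticChar (ZMod p) x : ℤ) : ZI) =
        (n : ZI) ^ (p / 2) - q2 p x := by
      push_cast
      rfl
    rwa [e] at h5
  have e1 : ((n : ZI) ^ ((p - 1) / 4)) ^ 2 = (n : ZI) ^ (p / 2) := by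
    rw [← pow_mul]
    congr 1
    omega
  rw [e1] at h2
  have h5 : gz a m ∣ χ x ^ 2 - q2 p x := by
    have h6 := dvd_sub h4 h2
    have e : (n : ZI) ^ (p / 2) - q2 p x - ((n : ZI) ^ (p / 2) - χ x ^ 2) =
      χ x ^ 2 - q2 p x := by ring
    rwa [e] at h6
  have h6 : χ x ^ 2 = 1 ∨ χ x ^ 2 = -1 := by
    have h7 : (χ x ^ 2) ^ 2 = 1 := by
      rw [← pow_mul]
      exact hχ.four x hx
    exact sq_eq_one_iff.1 h7
  have h7 : q2 p x = 1 ∨ q2 p x = -1 := by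
    have e : q2 p x = ((quadraticChar (ZMod p) x : ℤ) : ZI) := rfl
    rcases quadraticChar_dichotomy hx with h8 | h8
    · left
      rw [e, h8]
      simp
    · right
      rw [e, h8]
      simp
  have h8 := not_dvd_two h
  rcases h6 with h6 | h6 <;> rcases h7 with h7 | h7 <;> rw [h6, h7] at h5 ⊢
  · exfalso
    apply h8
    have e : (1 : ZI) - -1 = 2 := by norm_num
    rwa [e] at h5
  · exfalso
    apply h8
    have e : (-1 : ZI) - 1 = -2 := by norm_num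
    rw [e] at h5
    exact (dvd_neg).1 h5

theorem t_GSF : S_GSF := by
  intro p ℓ _ _ a m χ h hχ hℓ2 hℓp hJ φ
  have hp4 := p_mod h
  have hp2 : ringChar (ZMod p) ≠ 2 := by
    rw [ZMod.ringChar_zmod_n]
    omega
  have hℓ : ℓ.Prime := Fact.out
  have hp : p.Prime := Fact.out
  -- the characteristic
  have hp0 : (p : AlgebraicClosure (ZMod ℓ)) ≠ 0 := by
    intro h0
    have h1 := (CharP.cast_eq_zero_iff (AlgebraicClosure (ZMod ℓ)) ℓ p).1 h0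
    exact hℓp ((Nat.prime_dvd_prime_iff_eq hℓ hp).1 h1)
  have h20 : (2 : AlgebraicClosure (ZMod ℓ)) ≠ 0 := by
    intro h0
    have h1 := (CharP.cast_eq_zero_iff (AlgebraicClosure (ZMod ℓ)) ℓ 2).1 (by exact_mod_cast h0)
    exact hℓ2 ((Nat.prime_dvd_prime_iff_eq hℓ Nat.prime_two).1 h1)
  -- the characters
  obtain ⟨X, hX⟩ : ∃ X, X = χ.ringHomComp φ := ⟨_, rfl⟩
  obtain ⟨Q, hQ⟩ : ∃ Q, Q = (q2 p).ringHomComp φ := ⟨_, rfl⟩
  have hXa : ∀ x, X x = φ (χ x) := fun x => by rw [hX]; rfl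
  have hQa : ∀ x, Q x = φ (q2 p x) := fun x => by rw [hQ]; rfl
  have hX4 : X ^ 4 = 1 := by
    ext u
    rw [MulChar.pow_apply_coe, MulChar.one_apply_coe, hXa, ← map_pow, hχ.four _ u.ne_zero, map_one]
  have hX2 : X ^ 2 = Q := by
    ext u
    rw [MulChar.pow_apply_coe, hXa, hQa, ← map_pow, sq_eq h hχ _ u.ne_zero]
  have hXQ : X * Q = X⁻¹ := by
    rw [← hX2]
    apply eq_inv_of_mul_eq_one_left
    rw [← hX4]
    group
  have hQ1 : Q ≠ 1 := by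
    intro h1
    obtain ⟨u, hu⟩ := quadraticChar_exists_neg_one' hp2
    have h2 : Q u = -1 := by
      rw [hQa]
      show φ ((quadraticChar (ZMod p) u : ℤ) : ZI) = -1
      rw [hu]
      simp
    rw [h1, MulChar.one_apply_coe] at h2
    apply h20
    linear_combination h2
  have hX1 : X ≠ 1 := by
    intro h1
    apply hQ1
    rw [← hX2, h1, one_pow]
  have hXQ1 : X * Q ≠ 1 := by
    rw [hXQ]
    exact inv_ne_one.2 hX1
  have hQq : Q.IsQuadratic := by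
    rw [hQ]
    exact ((quadraticChar_isQuadratic (ZMod p)).comp _).comp _
  have hm1 : X (-1) ^ 2 = 1 := by
    rw [← map_pow]
    simp
  have hQm1 : Q (-1) = 1 := by
    rw [← hX2]
    have e : ((-1 : (ZMod p)ˣ) : ZMod p) = -1 := by simp
    rw [← e, MulChar.pow_apply_coe, e, hm1]
  have hXim : X⁻¹ (-1) = X (-1) := by
    rw [MulChar.inv_apply', inv_neg_one]
  -- Gauss sums
  have : NeZero (p : AlgebraicClosure (ZMod ℓ)) := ⟨hp0⟩
  obtain ⟨ζ, hζ⟩ := HasEnoughRootsOfUnity.exists_primitiveRoot (AlgebraicClosure (ZMod ℓ)) p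
  obtain ⟨ψ, hψ⟩ : ∃ ψ : AddChar (ZMod p) (AlgebraicClosure (ZMod ℓ)), ψ.IsPrimitive :=
    ⟨_, AddChar.zmodChar_primitive_of_primitive_root p hζ⟩
  obtain ⟨G, hG⟩ : ∃ G, G = gaussSum X ψ := ⟨_, rfl⟩
  obtain ⟨G', hG'⟩ : ∃ G', G' = gaussSum X⁻¹ ψ := ⟨_, rfl⟩
  obtain ⟨g, hg⟩ : ∃ g, g = gaussSum Q ψ := ⟨_, rfl⟩
  have hcard : ((Fintype.card (ZMod p) : ℕ) : AlgebraicClosure (ZMod ℓ)) = (p : _) := by
    rw [ZMod.card]
  have g1 : G' * φ (jacobiSum χ (q2 p)) = G * g := by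
    have h1 := jacobiSum_mul_nontrivial hXQ1 ψ
    rw [hXQ, ← hG', ← hG, ← hg, hX, hQ, jacobiSum_ringHomComp] at h1
    exact h1
  have g2 : g ^ 2 = p := by
    rw [hg, gaussSum_sq hQ1 hQq hψ, hQm1, one_mul, hcard]
  have g3 : G * G' = X (-1) * p := by
    have h1 := gaussSum_mul_gaussSum_eq_card hX1 hψ
    have h2 := mul_gaussSum_inv_eq_gaussSum X⁻¹ ψ
    rw [hG, hG', ← h2, hXim, ← hcard, ← h1]
    ring
  have g4 : G ^ 4 = φ ((p : ZI) * gz a m ^ 2) := by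
    have h1 : φ (jacobiSum χ (q2 p)) ^ 2 = φ (gz a m ^ 2) := by rw [← map_pow, hJ]
    have h2 : (p : AlgebraicClosure (ZMod ℓ)) ^ 2 * G ^ 4 =
        (p : AlgebraicClosure (ZMod ℓ)) ^ 2 * ((p : AlgebraicClosure (ZMod ℓ)) *
          φ (gz a m ^ 2)) := by
      rw [← h1]
      have h3 : (G' * φ (jacobiSum χ (q2 p))) ^ 2 = G ^ 2 * p := by
        rw [g1, mul_pow, g2]
      have h4 : (G * G') ^ 2 = (p : AlgebraicClosure (ZMod ℓ)) ^ 2 := by
        rw [g3, mul_pow, hm1, one_mul]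
      have h5 : (G * G') ^ 2 * φ (jacobiSum χ (q2 p)) ^ 2 = G ^ 4 * p := by
        calc _ = G ^ 2 * (G' * φ (jacobiSum χ (q2 p))) ^ 2 := by ring
          _ = _ := by rw [h3]; ring
      rw [h4] at h5
      linear_combination (-(p : AlgebraicClosure (ZMod ℓ))) * h5
    have h3 := mul_left_cancel₀ (pow_ne_zero 2 hp0) h2
    rw [h3, map_mul, map_natCast]
  have hG0 : G ≠ 0 := by
    intro h0
    rw [h0, zero_mul] at g3
    have h1 : X (-1) ≠ 0 := by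
      intro h2
      rw [h2] at hm1
      simp at hm1
    exact mul_ne_zero h1 hp0 g3.symm
  -- Frobenius
  have hℓu : IsUnit (ℓ : ZMod p) := by
    rw [isUnit_iff_ne_zero]
    intro h0
    have h1 := (ZMod.natCast_eq_zero_iff ℓ p).1 h0
    exact hℓp ((Nat.prime_dvd_prime_iff_eq hp hℓ).1 h1).symm
  have frob : (X ^ ℓ) (ℓ : ZMod p) * G ^ ℓ = gaussSum (X ^ ℓ) ψ := by
    rw [hG, gaussSum_frob, AddChar.pow_mulShift, ← gaussSum_mulShift (X ^ ℓ) ψ hℓu.unit,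
      hℓu.unit_spec]
  have hXℓ0 : X (ℓ : ZMod p) * X⁻¹ (ℓ : ZMod p) = 1 := by
    rw [← MulChar.mul_apply, mul_inv_cancel]
    exact MulChar.one_apply hℓu
  refine ⟨fun hmod => ?_, fun hmod => ?_⟩
  · obtain ⟨k, hk⟩ : ∃ k, ℓ = 4 * k + 1 := ⟨ℓ / 4, by omega⟩
    have e : X ^ ℓ = X := by
      have e0 : X ^ ℓ = X ^ (4 * k + 1) := congrArg (fun j => X ^ j) hk
      rw [e0, pow_add, pow_mul, hX4, one_pow, one_mul, pow_one]
    rw [e, ← hG] at frob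
    have h1 : G * (X (ℓ : ZMod p) * (G ^ 4) ^ k) = G * 1 := by
      have e1 : G ^ ℓ = G ^ (4 * k + 1) := congrArg (fun j => G ^ j) hk
      calc _ = X (ℓ : ZMod p) * G ^ (4 * k + 1) := by ring
        _ = G * 1 := by rw [← e1, frob, mul_one]
    have h2 := mul_left_cancel₀ hG0 h1
    have h3 : (ℓ - 1) / 4 = k := by omega
    rw [← g4, h3, ← hXa]
    exact h2
  · obtain ⟨k, hk⟩ : ∃ k, ℓ = 4 * k + 3 := ⟨ℓ / 4, by omega⟩
    have e : X ^ ℓ = X⁻¹ := by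
      apply eq_inv_of_mul_eq_one_left
      have e0 : X ^ ℓ = X ^ (4 * k + 3) := congrArg (fun j => X ^ j) hk
      have e1 : 4 * k + 3 + 1 = 4 * (k + 1) := by ring
      rw [e0, ← pow_succ, e1, pow_mul, hX4, one_pow]
    rw [e, ← hG'] at frob
    have h3 : (ℓ + 1) / 4 = k + 1 := by omega
    rw [← g4, h3, ← hXa, ← hXa, map_natCast φ]
    calc X (ℓ : ZMod p) * X (-1) * (p : AlgebraicClosure (ZMod ℓ))
        = X (ℓ : ZMod p) * (G * G') := by rw [g3]; ring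
      _ = X (ℓ : ZMod p) * (G * (X⁻¹ (ℓ : ZMod p) * G ^ ℓ)) := by rw [frob]
      _ = (X (ℓ : ZMod p) * X⁻¹ (ℓ : ZMod p)) * G ^ (ℓ + 1) := by ring
      _ = G ^ (ℓ + 1) := by rw [hXℓ0, one_mul]
      _ = (G ^ 4) ^ (k + 1) := by
        rw [← pow_mul]
        congr 1
        omega

end Pool.Agent.H533.JQ.GSF
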