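import Pool.Agent.H533.JQ.Stm

/-! # JAC: the value of the Jacobi sum (helper878, for helper533) -/

set_option autoImplicit false

namespace Pool.Agent.H533.JQ.JAC

open Finset

theorem chi4_odd (n : ℤ) (h : n % 2 = 1) : ZMod.χ₄ (n : ZMod 4) = 1 ∨ ZMod.χ₄ (n : ZMod 4) = -1 := by
  rw [ZMod.χ₄_int_eq_if_mod_four]
  rw [if_neg (by omega)]
  split_ifs
  · exact Or.inl rfl
  · exact Or.inr rfl

theorem t_JAC : S_JAC := by
  intro hDIV hNRM hTRF p _ a m χ hPD hQC hsum
  obtain ⟨u, hu⟩ := hDIV p a m χ hPD hQC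
  have h1 := hNRM p a m χ hPD hQC
  have h2 := hTRF p a m χ hPD hQC 1 one_ne_zero
  simp only [one_mul] at h2
  rw [hsum, map_one, star_one, one_mul, one_mul] at h2
  obtain ⟨J, hJ⟩ : ∃ J, J = jacobiSum χ (q2 p) := ⟨_, rfl⟩
  rw [← hJ] at hu h1 h2 ⊢
  obtain ⟨e, he⟩ : ∃ e, e = ZMod.χ₄ ((a + m : ℤ) : ZMod 4) := ⟨_, rfl⟩
  rw [← he] at h2 ⊢
  have heps : e = 1 ∨ e = -1 := by
    rw [he]
    exact chi4_odd _ (by have := hPD.odd; have := hPD.even; omega)
  have j1 : J.re = a * u.re - m * u.im := by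
    rw [hu, Zsqrtd.re_mul]
    change a * u.re + (-1) * m * u.im = _
    ring
  have j2 : J.im = a * u.im + m * u.re := by
    rw [hu, Zsqrtd.im_mul]
    rfl
  have k1 : J.re * J.re + J.im * J.im = (p : ℤ) := by
    have h3 := congrArg Zsqrtd.re h1
    rw [Zsqrtd.re_mul, Zsqrtd.re_star, Zsqrtd.im_star] at h3
    have h4 : ((p : ZI)).re = (p : ℤ) := by simp
    rw [h4] at h3
    linarith
  have k2 : 2 * J.re = -(2 * e * a) := by
    have h3 := congrArg Zsqrtd.re h2
    rw [Zsqrtd.re_add, Zsqrtd.re_star] at h3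
    have h4 : ((-(2 * e * a) : ℤ) : ZI).re = -(2 * e * a) := by
      rw [Zsqrtd.re_intCast]
    rw [h4] at h3
    linarith
  have hp0 : (p : ℤ) ≠ 0 := by
    have := hPD.pr.pos
    omega
  have k3 : u.re * u.re + u.im * u.im = 1 := by
    have h3 : (p : ℤ) * (u.re * u.re + u.im * u.im) = (p : ℤ) * 1 := by
      rw [mul_one]
      calc (p : ℤ) * (u.re * u.re + u.im * u.im) =
            (a ^ 2 + m ^ 2) * (u.re * u.re + u.im * u.im) := by rw [hPD.rep]
        _ = J.re * J.re + J.im * J.im := by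
            rw [j1, j2]
            ring
        _ = p := k1
    exact mul_left_cancel₀ hp0 h3
  have hodd := hPD.odd
  have heven := hPD.even
  have ha0 : a ≠ 0 := by
    rintro rfl
    omega
  have k4 : a * u.re - m * u.im = -(e * a) := by
    rw [← j1]
    linarith
  -- `u.re` and `u.im` are at most one in absolute value
  have b1 : u.re = 0 ∨ u.re = 1 ∨ u.re = -1 := by
    have : u.re * u.re ≤ 1 := by nlinarith [mul_self_nonneg u.im]
    have h5 : u.re ≤ 1 := by nlinarith
    have h6 : -1 ≤ u.re := by nlinarith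
    omega
  have b2 : u.im = 0 ∨ u.im = 1 ∨ u.im = -1 := by
    have : u.im * u.im ≤ 1 := by nlinarith [mul_self_nonneg u.re]
    have h5 : u.im ≤ 1 := by nlinarith
    have h6 : -1 ≤ u.im := by nlinarith
    omega
  have hre : u.re = -e ∧ u.im = 0 := by
    rcases b1 with h | h | h
    · exfalso
      rw [h] at k3 k4
      rcases b2 with h' | h' | h'
      · rw [h'] at k3
        norm_num at k3
      · rw [h'] at k4
        rcases heps with h'' | h'' <;> rw [h''] at k4 <;> omega
      · rw [h'] at k4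
        rcases heps with h'' | h'' <;> rw [h''] at k4 <;> omega
    · rw [h] at k3 k4
      have him : u.im = 0 := by nlinarith [mul_self_nonneg u.im]
      refine ⟨?_, him⟩
      rw [h]
      rw [him] at k4
      rcases heps with h'' | h''
      · exfalso
        rw [h''] at k4
        omega
      · rw [h'']
        norm_num
    · rw [h] at k3 k4
      have him : u.im = 0 := by nlinarith [mul_self_nonneg u.im]
      refine ⟨?_, him⟩
      rw [h]
      rw [him] at k4
      rcases heps with h'' | h''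
      · rw [h'']
      · exfalso
        rw [h''] at k4
        omega
  have hu2 : u = -((e : ℤ) : ZI) := by
    refine Zsqrtd.ext ?_ ?_
    · rw [hre.1, Zsqrtd.re_neg, Zsqrtd.re_intCast]
    · rw [hre.2, Zsqrtd.im_neg, Zsqrtd.im_intCast, neg_zero]
  rw [hu, hu2, mul_comm]

end Pool.Agent.H533.JQ.JAC
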