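import Pool.Agent.H533.JQ.QP0
import Pool.Agent.H533.JQ.Cnt
import Pool.Agent.H533.JT.Cnt

/-!
# Project JQ (helper533): the law of the traces for `y² = x³ - D x` and for `y² = x³ - 11 D² x + 14 D³`
-/

set_option autoImplicit false

namespace Pool.Agent.H533.JQ

open Finset Pool.Agent.N782.GN Pool.Agent.N782.GN.LT Pool.Agent.H304R2.EC Pool.Agent.H304R2.EC.Pts Pool.Agent.H533.JT

theorem gi_cases {p : ℕ} [Fact p.Prime] {a m : ℤ} {χ : MulChar (ZMod p) ZI} (hc : QC p a m χ) {x : ZMod p} (hx : x ≠ 0) :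
    χ x = 1 ∨ χ x = -1 ∨ χ x = gi ∨ χ x = -gi := CHAR.four_cases _ (hc.four x hx)

/-- the value of the character at a nonzero integer is periodic -/
theorem chi_int (htwo : S_TWO) {D : ℤ} (hD : D ≠ 0) {p p' : ℕ} [Fact p.Prime] [Fact p'.Prime] {a m a' m' : ℤ}
    {χ : MulChar (ZMod p) ZI} {χ' : MulChar (ZMod p') ZI} (h : PD p a m) (h' : PD p' a' m') (hc : QC p a m χ)
    (hc' : QC p' a' m' χ') (hp : ¬ p ∣ 2 * D.natAbs) (hp' : ¬ p' ∣ 2 * D.natAbs)
    (ha : ((16 * D.natAbs : ℕ) : ℤ) ∣ a - a') (hm : ((16 * D.natAbs : ℕ) : ℤ) ∣ m - m') :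
    χ (D : ZMod p) = χ' (D : ZMod p') := by
  push_cast at ha hm
  have h1 := chi_nat htwo D.natAbs (by omega) p p' a m a' m' χ χ' h h' hc hc' hp hp' (by push_cast; exact ha)
    (by push_cast; exact hm)
  have h16a : (4 : ℤ) ∣ a - a' := (Dvd.intro (4 * |D|) (by ring : (4 : ℤ) * (4 * |D|) = 16 * |D|)).trans ha
  have h16m : (4 : ℤ) ∣ m - m' := (Dvd.intro (4 * |D|) (by ring : (4 : ℤ) * (4 * |D|) = 16 * |D|)).trans hm
  rcases le_or_gt 0 D with h0 | h0
  · have e1 : D = (D.natAbs : ℤ) := by omega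
    have e2 : (D : ZMod p) = ((D.natAbs : ℕ) : ZMod p) := by
      have h := congrArg (Int.cast : ℤ → ZMod p) e1
      rwa [Int.cast_natCast] at h
    have e3 : (D : ZMod p') = ((D.natAbs : ℕ) : ZMod p') := by
      have h := congrArg (Int.cast : ℤ → ZMod p') e1
      rwa [Int.cast_natCast] at h
    rw [e2, e3]
    exact h1
  · have e1 : D = -(D.natAbs : ℤ) := by omega
    have e2 : (D : ZMod p) = (-1) * ((D.natAbs : ℕ) : ZMod p) := by
      have h := congrArg (Int.cast : ℤ → ZMod p) e1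
      rw [Int.cast_neg, Int.cast_natCast] at h
      exact h.trans (by ring)
    have e3 : (D : ZMod p') = (-1) * ((D.natAbs : ℕ) : ZMod p') := by
      have h := congrArg (Int.cast : ℤ → ZMod p') e1
      rw [Int.cast_neg, Int.cast_natCast] at h
      exact h.trans (by ring)
    rw [e2, e3, map_mul, map_mul, h1, PERL.chi_neg_one h hc, PERL.chi_neg_one h' hc', PERL.par h h' h16a h16m]

/-- the trace in terms of the character: `trace = ε (conj(χ D) π + χ D conj(π))` -/
theorem trace_chi {D : ℤ} {p : ℕ} [Fact p.Prime] {a m : ℤ} {χ : MulChar (ZMod p) ZI} (h : PD p a m) (hc : QC p a m χ)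
    (hD : (D : ZMod p) ≠ 0) :
    ((trace (-D, 0) p : ℤ) : ZI) = ((ZMod.χ₄ ((a + m : ℤ) : ZMod 4) : ℤ) : ZI) *
      (star (χ (D : ZMod p)) * gz a m + χ (D : ZMod p) * star (gz a m)) := by
  have h1 := TRF.t_TRF p a m χ h hc (D : ZMod p) hD
  have h2 : trace (-D, 0) p = - (∑ x : ZMod p, quadraticChar (ZMod p) (x ^ 3 - (D : ZMod p) * x) : ℤ) := by
    rw [trace_sum (-D) 0 (PERL.p_ne_two h)]
    congr 1
    refine sum_congr rfl fun x _ => ?_
    congr 1
    push_cast
    ring
  rw [h2, Int.cast_neg, h1, J_eq h hc]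
  have h3 : star (((ZMod.χ₄ ((a + m : ℤ) : ZMod 4) : ℤ) : ZI)) = ((ZMod.χ₄ ((a + m : ℤ) : ZMod 4) : ℤ) : ZI) := by
    have h1 := h.odd
    have h2 := h.even
    rcases chi_pm (n := a + m) (by omega) with h | h <;> rw [h] <;> simp
  rw [star_mul, star_neg, h3]
  ring

/-- the four values of the trace -/
theorem trace_val {D : ℤ} {p : ℕ} [Fact p.Prime] {a m : ℤ} {χ : MulChar (ZMod p) ZI} (h : PD p a m) (hc : QC p a m χ)
    (hD : (D : ZMod p) ≠ 0) :
    (χ (D : ZMod p) = 1 → trace (-D, 0) p = ZMod.χ₄ ((a + m : ℤ) : ZMod 4) * (2 * a)) ∧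
    (χ (D : ZMod p) = -1 → trace (-D, 0) p = -(ZMod.χ₄ ((a + m : ℤ) : ZMod 4) * (2 * a))) ∧
    (χ (D : ZMod p) = gi → trace (-D, 0) p = ZMod.χ₄ ((a + m : ℤ) : ZMod 4) * (2 * m)) ∧
    (χ (D : ZMod p) = -gi → trace (-D, 0) p = -(ZMod.χ₄ ((a + m : ℤ) : ZMod 4) * (2 * m))) := by
  have h1 := trace_chi h hc hD
  set ε : ℤ := ZMod.χ₄ ((a + m : ℤ) : ZMod 4) with hε
  have hre := congrArg Zsqrtd.re h1
  refine ⟨fun h2 => ?_, fun h2 => ?_, fun h2 => ?_, fun h2 => ?_⟩ <;> rw [h2] at hre <;>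
    simp [gz, gi, Zsqrtd.re_mul, Zsqrtd.im_mul] at hre <;> linarith


theorem eps_sq {n : ℤ} (h : n % 2 = 1) : ZMod.χ₄ (n : ZMod 4) * ZMod.χ₄ (n : ZMod 4) = 1 := by
  rcases chi_pm h with h | h <;> rw [h] <;> norm_num

/-- sums of two squares: one coordinate is odd, the other one even -/
theorem parity {p : ℕ} (hp : p.Prime) (h2 : p ≠ 2) {a m : ℤ} (h : a ^ 2 + m ^ 2 = (p : ℤ)) :
    (a % 2 = 1 ∧ m % 2 = 0) ∨ (a % 2 = 0 ∧ m % 2 = 1) := by
  have hodd : p % 2 = 1 := by
    rcases hp.eq_two_or_odd with h3 | h3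
    · exact absurd h3 h2
    · exact h3
  have h1 : (a ^ 2 + m ^ 2) % 2 = 1 := by omega
  have h3 : a % 2 = 0 ∨ a % 2 = 1 := by omega
  have h4 : m % 2 = 0 ∨ m % 2 = 1 := by omega
  have e : ∀ n : ℤ, n % 2 = 0 → n ^ 2 % 2 = 0 := fun n hn => by
    rw [pow_two, Int.mul_emod, hn]
    norm_num
  have o : ∀ n : ℤ, n % 2 = 1 → n ^ 2 % 2 = 1 := fun n hn => by
    rw [pow_two, Int.mul_emod, hn]
    norm_num
  rcases h3 with h3 | h3 <;> rcases h4 with h4 | h4
  · have := e a h3
    have := e m h4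
    omega
  · exact Or.inr ⟨h3, h4⟩
  · exact Or.inl ⟨h3, h4⟩
  · have := o a h3
    have := o m h4
    omega

theorem gi_ne : (gi : ZI) ≠ 1 ∧ (gi : ZI) ≠ -1 ∧ (-gi : ZI) ≠ 1 ∧ (-gi : ZI) ≠ -1 ∧ (gi : ZI) ≠ -gi ∧ (1 : ZI) ≠ -1 := by
  refine ⟨?_, ?_, ?_, ?_, ?_, ?_⟩ <;> (intro h; have h1 := congrArg Zsqrtd.im h; have h2 := congrArg Zsqrtd.re h; simp [gi] at h1 h2)
  all_goals omega

/-- the law of the traces of `y² = x³ - D x` modulo `16 |D|` -/
theorem law_quartic (htwo : S_TWO) {D : ℤ} (hD : D ≠ 0) : Law (-D, 0) (16 * D.natAbs) := by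
  have hbase : ∀ p : ℕ, p.Prime → ¬ p ∣ 16 * D.natAbs → p ≠ 2 ∧ ¬ p ∣ 2 * D.natAbs ∧ (D : ZMod p) ≠ 0 := by
    intro p hp hq
    refine ⟨?_, ?_, ?_⟩
    · rintro rfl
      exact hq ⟨8 * D.natAbs, by ring⟩
    · rintro ⟨u, hu⟩
      exact hq ⟨8 * u, by linarith⟩
    · intro h0
      apply hq
      have h1 : (p : ℤ) ∣ D := (ZMod.intCast_zmod_eq_zero_iff_dvd D p).1 h0
      exact Dvd.dvd.mul_left (Int.natCast_dvd.1 h1) 16
  -- the criterion
  have hcrit : ∀ (p : ℕ) (a m : ℤ) (hpf : Fact p.Prime) (χ : MulChar (ZMod p) ZI), (D : ZMod p) ≠ 0 → PD p a m → QC p a m χ →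
      (trace (-D, 0) p = 2 * a ↔ χ (D : ZMod p) = ((ZMod.χ₄ ((a + m : ℤ) : ZMod 4) : ℤ) : ZI)) ∧
      (trace (-D, 0) p = 2 * m ↔ χ (D : ZMod p) = gi * ((ZMod.χ₄ ((a + m : ℤ) : ZMod 4) : ℤ) : ZI)) := by
    intro p a m hpf χ h0 h hc
    obtain ⟨v1, v2, v3, v4⟩ := trace_val h hc h0
    have ho := h.odd
    have he := h.even
    have hne := prime_ne_sq h.pr h.rep
    have hx : (D : ZMod p) ≠ 0 := h0
    obtain ⟨n1, n2, n3, n4, n5, n6⟩ := gi_ne
    rcases chi_pm (n := a + m) (by omega) with hε | hε <;> rw [hε] at v1 v2 v3 v4 ⊢ <;>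
      rcases gi_cases hc hx with h1 | h1 | h1 | h1
    · have := v1 h1
      rw [h1, this]
      push_cast
      constructor
      · constructor
        · intro _; rfl
        · intro _; ring
      · constructor
        · intro h2; omega
        · intro h2; rw [mul_one] at h2; exact absurd h2.symm n1
    · have := v2 h1
      rw [h1, this]
      push_cast
      constructor
      · constructor
        · intro h2; omega
        · intro h2; exact absurd h2.symm n6
      · constructor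
        · intro h2; omega
        · intro h2; rw [mul_one] at h2; exact absurd h2.symm n2
    · have := v3 h1
      rw [h1, this]
      push_cast
      constructor
      · constructor
        · intro h2; omega
        · intro h2; exact absurd h2 n1
      · constructor
        · intro _; rw [mul_one]
        · intro _; ring
    · have := v4 h1
      rw [h1, this]
      push_cast
      constructor
      · constructor
        · intro h2; omega
        · intro h2; exact absurd h2 n3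
      · constructor
        · intro h2; omega
        · intro h2; rw [mul_one] at h2; exact absurd h2.symm n5
    · have := v1 h1
      rw [h1, this]
      push_cast
      constructor
      · constructor
        · intro h2; omega
        · intro h2; exact absurd h2 n6
      · constructor
        · intro h2; omega
        · intro h2
          rw [mul_neg, mul_one] at h2
          exact absurd h2.symm n3
    · have := v2 h1
      rw [h1, this]
      push_cast
      constructor
      · constructor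
        · intro _; rfl
        · intro _; ring
      · constructor
        · intro h2; omega
        · intro h2
          rw [mul_neg, mul_one] at h2
          exact absurd h2.symm n4
    · have := v3 h1
      rw [h1, this]
      push_cast
      constructor
      · constructor
        · intro h2; omega
        · intro h2; exact absurd h2 n2
      · constructor
        · intro h2; omega
        · intro h2
          rw [mul_neg, mul_one] at h2
          exact absurd h2 n5
    · have := v4 h1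
      rw [h1, this]
      push_cast
      constructor
      · constructor
        · intro h2; omega
        · intro h2; exact absurd h2 n4
      · constructor
        · intro _
          rw [mul_neg, mul_one]
        · intro _; ring
  refine ⟨?_, ?_⟩
  · intro p hp hq ht
    obtain ⟨h2, hq2, h0⟩ := hbase p hp hq
    have : Fact p.Prime := ⟨hp⟩
    have hp4 : p % 4 ≠ 3 := by
      intro h3
      apply ht
      -- for `p ≡ 3 mod 4` the trace is `0`
      have e1 : trace (-D, 0) p = - (∑ x : ZMod p, quadraticChar (ZMod p) (x ^ 3 - (D : ZMod p) * x) : ℤ) := by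
        rw [trace_sum (-D) 0 h2]
        congr 1
        refine sum_congr rfl fun x _ => ?_
        congr 1
        push_cast
        ring
      have hm1 : quadraticChar (ZMod p) (-1) = -1 := by
        have e2 := (ZMod.χ₄_nat_three_mod_four h3)
        rw [quadraticChar_neg_one (rc h2), ZMod.card]
        exact e2
      have e3 : (∑ x : ZMod p, quadraticChar (ZMod p) (x ^ 3 - (D : ZMod p) * x) : ℤ) =
          - ∑ x : ZMod p, quadraticChar (ZMod p) (x ^ 3 - (D : ZMod p) * x) := by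
        rw [← sum_neg_distrib]
        refine Fintype.sum_equiv (Equiv.neg (ZMod p)) _ _ fun x => ?_
        rw [Equiv.neg_apply]
        have e4 : (-x) ^ 3 - (D : ZMod p) * (-x) = (-1) * (x ^ 3 - (D : ZMod p) * x) := by ring
        rw [e4, map_mul, hm1]
        ring
      rw [e1]
      linarith
    have hodd : p % 2 = 1 := by
      rcases hp.eq_two_or_odd with h3 | h3
      · exact absurd h3 h2
      · exact h3
    obtain ⟨x, y, hxy⟩ := Nat.Prime.sq_add_sq (p := p) hp4
    have hxy' : (x : ℤ) ^ 2 + (y : ℤ) ^ 2 = (p : ℤ) := by exact_mod_cast hxy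
    obtain ⟨a, m, h, ha1, hm1⟩ : ∃ a m : ℤ, PD p a m ∧ a % 2 = 1 ∧ m % 2 = 0 := by
      rcases parity hp h2 hxy' with ⟨h3, h4⟩ | ⟨h3, h4⟩
      · exact ⟨x, y, ⟨hp, hxy', h3, h4⟩, h3, h4⟩
      · exact ⟨y, x, ⟨hp, by linarith, h4, h3⟩, h4, h3⟩
    obtain ⟨χ, hc⟩ := CHAR.t_CHAR p a m h
    obtain ⟨v1, v2, v3, v4⟩ := trace_val h hc h0
    have hr := h.rep
    rcases chi_pm (n := a + m) (by omega) with hε | hε <;> rw [hε] at v1 v2 v3 v4 <;>
      rcases gi_cases hc h0 with h1 | h1 | h1 | h1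
    · exact ⟨a, m, hr, by rw [v1 h1]; ring⟩
    · exact ⟨-a, m, by rw [neg_sq]; exact hr, by rw [v2 h1]; ring⟩
    · exact ⟨m, a, by linarith, by rw [v3 h1]; ring⟩
    · exact ⟨-m, a, by rw [neg_sq]; linarith, by rw [v4 h1]; ring⟩
    · exact ⟨-a, m, by rw [neg_sq]; exact hr, by rw [v1 h1]; ring⟩
    · exact ⟨a, m, hr, by rw [v2 h1]; ring⟩
    · exact ⟨-m, a, by rw [neg_sq]; linarith, by rw [v3 h1]; ring⟩
    · exact ⟨m, a, by linarith, by rw [v4 h1]; ring⟩
  · intro p p' a m a' m' hp hp' hq hq' h1 h2 ha hm ht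
    obtain ⟨g1, g2, g3⟩ := hbase p hp hq
    obtain ⟨g1', g2', g3'⟩ := hbase p' hp' hq'
    have : Fact p.Prime := ⟨hp⟩
    have : Fact p'.Prime := ⟨hp'⟩
    have d4 : (4 : ℤ) ∣ ((16 * D.natAbs : ℕ) : ℤ) := ⟨4 * D.natAbs, by push_cast; ring⟩
    have ha4 := d4.trans ha
    have hm4 := d4.trans hm
    have hχ4 : ∀ u v : ℤ, (4 : ℤ) ∣ u - v → ZMod.χ₄ (u : ZMod 4) = ZMod.χ₄ (v : ZMod 4) := by
      intro u v huv
      rw [ZMod.χ₄_int_mod_four u, ZMod.χ₄_int_mod_four v]
      have : u % 4 = v % 4 := by omega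
      rw [this]
    rcases parity hp g1 h1 with ⟨p1, p2⟩ | ⟨p1, p2⟩
    · have h : PD p a m := ⟨hp, h1, p1, p2⟩
      have h' : PD p' a' m' := ⟨hp', h2, by omega, by omega⟩
      obtain ⟨χ, hc⟩ := CHAR.t_CHAR p a m h
      obtain ⟨χ', hc'⟩ := CHAR.t_CHAR p' a' m' h'
      have e1 := (hcrit p a m ⟨hp⟩ χ g3 h hc).1.1 ht
      apply (hcrit p' a' m' ⟨hp'⟩ χ' g3' h' hc').1.2
      rw [← chi_int htwo hD h h' hc hc' g2 g2' ha hm, e1, hχ4 (a + m) (a' + m') (by
        have := dvd_add ha4 hm4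
        have e : a - a' + (m - m') = a + m - (a' + m') := by ring
        rwa [e] at this)]
    · have h : PD p m a := ⟨hp, by linarith, p2, p1⟩
      have h' : PD p' m' a' := ⟨hp', by linarith, by omega, by omega⟩
      obtain ⟨χ, hc⟩ := CHAR.t_CHAR p m a h
      obtain ⟨χ', hc'⟩ := CHAR.t_CHAR p' m' a' h'
      have e1 := (hcrit p m a ⟨hp⟩ χ g3 h hc).2.1 ht
      apply (hcrit p' m' a' ⟨hp'⟩ χ' g3' h' hc').2.2
      rw [← chi_int htwo hD h h' hc hc' g2 g2' hm ha, e1, hχ4 (m + a) (m' + a') (by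
        have := dvd_add hm4 ha4
        have e : m - m' + (a - a') = m + a - (m' + a') := by ring
        rwa [e] at this)]

end Pool.Agent.H533.JQ
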