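import Pool.Agent.H533.JQ.Stm

set_option autoImplicit false

namespace Pool.Agent.H533.JQ.NRM

open Finset
open Pool.Agent.H533.JQ

theorem p_mod {p : ℕ} {a m : ℤ} (h : PD p a m) : p % 4 = 1 := by
  have ha := h.odd
  have hm := h.even
  have hrep := h.rep
  obtain ⟨b, hb⟩ : ∃ b, a = 2 * b + 1 := ⟨a / 2, by omega⟩
  obtain ⟨c, hc⟩ : ∃ c, m = 2 * c := ⟨m / 2, by omega⟩
  obtain ⟨t, ht⟩ : ∃ t : ℤ, (p : ℤ) = 4 * t + 1 := ⟨b ^ 2 + b + c ^ 2, by rw [← hrep, hb, hc]; ring⟩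
  omega

theorem gz_mul_star (a m : ℤ) : gz a m * star (gz a m) = ((a ^ 2 + m ^ 2 : ℤ) : ZI) := by
  apply Zsqrtd.ext
  · rw [Zsqrtd.re_intCast]
    simp [gz]
    ring
  · rw [Zsqrtd.im_intCast]
    simp [gz]
    ring

/-- a value -/
theorem key {p : ℕ} [Fact p.Prime] {a m : ℤ} {χ : MulChar (ZMod p) ZI} (h : PD p a m)
    (hq : QC p a m χ) {x : ZMod p} (hx : quadraticChar (ZMod p) x = -1) : χ x ^ 2 = -1 := by
  have hp4 := p_mod h
  have hp := h.pr
  have hp2 : p ≠ 2 := by omega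
  have hF : ringChar (ZMod p) ≠ 2 := by rw [ZMod.ringChar_zmod_n]; exact hp2
  have hx0 : x ≠ 0 := by
    rintro rfl
    rw [quadraticChar_zero] at hx
    norm_num at hx
  have : NeZero p := ⟨hp.ne_zero⟩
  obtain ⟨n, hn⟩ : ∃ n : ℤ, (n : ZMod p) = x := ⟨(x.val : ℤ), by simp⟩
  have hnd : ¬ (p : ℤ) ∣ n := by
    intro hd
    apply hx0
    rw [← hn]
    exact (ZMod.intCast_zmod_eq_zero_iff_dvd n p).2 hd
  have hcong := hq.cong n hnd
  rw [hn] at hcong
  have e : (p - 1) / 2 = (p - 1) / 4 * 2 := by omega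
  have h1 : gz a m ∣ (n : ZI) ^ ((p - 1) / 2) - χ x ^ 2 := by
    rw [e, pow_mul]
    exact hcong.trans (sub_dvd_pow_sub_pow _ _ 2)
  have h2 : (p : ℤ) ∣ n ^ ((p - 1) / 2) + 1 := by
    rw [← ZMod.intCast_zmod_eq_zero_iff_dvd]
    have h3 := quadraticChar_eq_pow_of_char_ne_two' hF x
    rw [hx, ZMod.card] at h3
    have e2 : p / 2 = (p - 1) / 2 := by omega
    rw [e2] at h3
    push_cast at h3 ⊢
    rw [hn, ← h3]
    ring
  have hpi : gz a m ∣ (p : ZI) := by
    refine ⟨star (gz a m), ?_⟩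
    rw [gz_mul_star, h.rep]
    push_cast
    rfl
  have h4 : gz a m ∣ (n : ZI) ^ ((p - 1) / 2) + 1 := by
    have h5 := map_dvd (Int.castRingHom ZI) h2
    have h6 : (Int.castRingHom ZI) (p : ℤ) = (p : ZI) := by simp
    have h7 : (Int.castRingHom ZI) (n ^ ((p - 1) / 2) + 1) = (n : ZI) ^ ((p - 1) / 2) + 1 := by simp
    rw [h6, h7] at h5
    exact hpi.trans h5
  have h8 : χ x ^ 2 * χ x ^ 2 = 1 := by
    rw [← pow_add]
    exact hq.four x hx0
  rcases mul_self_eq_one_iff.1 h8 with h9 | h9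
  · exfalso
    rw [h9] at h1
    have h10 : gz a m ∣ (2 : ZI) := by
      have := dvd_sub h4 h1
      have e3 : ((n : ZI) ^ ((p - 1) / 2) + 1) - ((n : ZI) ^ ((p - 1) / 2) - 1) = 2 := by ring
      rwa [e3] at this
    obtain ⟨w, hw⟩ := h10
    have h11 := congrArg Zsqrtd.norm hw
    rw [Zsqrtd.norm_mul] at h11
    have h12 : Zsqrtd.norm (gz a m) = (p : ℤ) := by
      rw [Zsqrtd.norm_def, ← h.rep]
      simp [gz]
      ring
    have h13 : Zsqrtd.norm (2 : ZI) = 4 := by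
      rw [Zsqrtd.norm_def]
      rfl
    rw [h12, h13] at h11
    have h14 : (p : ℤ) ∣ 4 := ⟨_, h11⟩
    have h15 : p ∣ 4 := by exact_mod_cast h14
    have h16 : p ∣ 2 := hp.dvd_of_dvd_pow (by norm_num; exact h15 : p ∣ 2 ^ 2)
    exact hp2 ((Nat.prime_dvd_prime_iff_eq hp Nat.prime_two).1 h16)
  · exact h9

theorem t_NRM : S_NRM := by
  intro p _ a m χ h hq
  have hp4 := p_mod h
  have hp := h.pr
  have hp2 : p ≠ 2 := by omega
  have hF : ringChar (ZMod p) ≠ 2 := by rw [ZMod.ringChar_zmod_n]; exact hp2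
  obtain ⟨x, hx⟩ := quadraticChar_exists_neg_one hF
  have hk := key h hq hx
  set f : ZI →+* ℂ := GaussianInt.toComplex with hf
  have hq2x : q2 p x = -1 := by
    unfold q2
    rw [MulChar.ringHomComp_apply, hx]
    simp
  have hkf : f (χ x) ^ 2 = -1 := by
    rw [← map_pow, hk, map_neg, map_one]
  have hx0 : x ≠ 0 := by
    rintro rfl
    rw [quadraticChar_zero] at hx
    norm_num at hx
  have hxu : IsUnit x := isUnit_iff_ne_zero.2 hx0
  have n1 : χ.ringHomComp f ≠ 1 := by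
    intro h1
    have h2 := congrArg (fun ψ : MulChar (ZMod p) ℂ => ψ x) h1
    simp only [MulChar.ringHomComp_apply, MulChar.one_apply hxu] at h2
    rw [h2] at hkf
    norm_num at hkf
  have n2 : (q2 p).ringHomComp f ≠ 1 := by
    intro h1
    have h2 := congrArg (fun ψ : MulChar (ZMod p) ℂ => ψ x) h1
    simp only [MulChar.ringHomComp_apply, MulChar.one_apply hxu] at h2
    rw [hq2x, map_neg, map_one] at h2
    norm_num at h2
  have n3 : χ.ringHomComp f * (q2 p).ringHomComp f ≠ 1 := by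
    intro h1
    have h2 := congrArg (fun ψ : MulChar (ZMod p) ℂ => ψ x) h1
    simp only [MulChar.mul_apply, MulChar.ringHomComp_apply, MulChar.one_apply hxu] at h2
    rw [hq2x, map_neg, map_one] at h2
    have h3 : f (χ x) = -1 := by linear_combination -h2
    rw [h3] at hkf
    norm_num at hkf
  have hch : ringChar ℂ ≠ ringChar (ZMod p) := by
    rw [ZMod.ringChar_zmod_n, ringChar.eq_zero]
    exact hp.ne_zero.symm
  have hJ := jacobiSum_mul_jacobiSum_inv hch n1 n2 n3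
  have hinv : jacobiSum (χ.ringHomComp f)⁻¹ ((q2 p).ringHomComp f)⁻¹ = f (star (jacobiSum χ (q2 p))) := by
    rw [hf, GaussianInt.toComplex_star, ← hf, ← jacobiSum_ringHomComp]
    unfold jacobiSum
    rw [map_sum]
    refine Finset.sum_congr rfl fun y _ => ?_
    rw [map_mul, ← MulChar.star_apply', ← MulChar.star_apply']
    rfl
  rw [hinv, jacobiSum_ringHomComp, ← map_mul, ZMod.card] at hJ
  apply GaussianInt.toComplex_injective
  rw [← hf, hJ]
  simp

end Pool.Agent.H533.JQ.NRM
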