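import Pool.Agent.H533.JQ.Fin

/-!
# Project JQ (helper533): vectors of traces with different absolute values
-/

set_option autoImplicit false

namespace Pool.Agent.H533.JQ

open Finset Pool.Agent.N782.GN Pool.Agent.N782.GN.LT Pool.Agent.H304R2.EC Pool.Agent.H304R2.EC.Pts Pool.Agent.H533.JT

/-- the trace at a sum of two squares is not zero -/
theorem trace_ne {E : ℤ × ℤ} {D : ℤ} (hE : CM E D) {p : ℕ} (hp : p.Prime) (hq : ¬ p ∣ 16 * D.natAbs) {a m : ℤ}
    (h : a ^ 2 + m ^ 2 = (p : ℤ)) : trace E p ≠ 0 := by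
  have : Fact p.Prime := ⟨hp⟩
  obtain ⟨hD, hE⟩ := hE
  have h2 : p ≠ 2 := by
    rintro rfl
    exact hq ⟨8 * D.natAbs, by ring⟩
  have hqD : ¬ p ∣ D.natAbs := fun h => hq (Dvd.dvd.mul_left h 16)
  obtain ⟨a', m', hpd⟩ : ∃ a' m' : ℤ, PD p a' m' := by
    rcases parity hp h2 h with ⟨h3, h4⟩ | ⟨h3, h4⟩
    · exact ⟨a, m, ⟨hp, h, h3, h4⟩⟩
    · exact ⟨m, a, ⟨hp, by linarith, h4, h3⟩⟩
  have hne := prime_ne_sq hp hpd.rep
  have ho := hpd.odd
  have he := hpd.even
  rcases hE with hE | hE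
  · rw [hE]
    have h0 : (D : ZMod p) ≠ 0 := by
      intro h0
      apply hqD
      exact Int.natCast_dvd.1 ((ZMod.intCast_zmod_eq_zero_iff_dvd D p).1 h0)
    obtain ⟨χ, hc⟩ := CHAR.t_CHAR p a' m' hpd
    obtain ⟨v1, v2, v3, v4⟩ := trace_val hpd hc h0
    rcases chi_pm (n := a' + m') (by omega) with hε | hε <;> rw [hε] at v1 v2 v3 v4 <;>
      rcases gi_cases hc h0 with h1 | h1 | h1 | h1
    · rw [v1 h1]; omega
    · rw [v2 h1]; omega
    · rw [v3 h1]; omega
    · rw [v4 h1]; omega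
    · rw [v1 h1]; omega
    · rw [v2 h1]; omega
    · rw [v3 h1]; omega
    · rw [v4 h1]; omega
  · have h1 : Gauss E D.natAbs := by
      refine ⟨by omega, Or.inr (Or.inr ⟨?_, ?_⟩)⟩
      · rw [hE]
        simp only
        rw [Int.natCast_natAbs, sq_abs]
      · rw [hE]
        simp only
        rw [Int.natCast_natAbs]
        rcases le_or_gt 0 D with h0 | h0
        · left
          rw [abs_of_nonneg h0]
        · right
          rw [abs_of_neg h0]
          ring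
    rw [trace_eq ISO.iso h1 h2 hqD, an_prime hp hpd.rep ho he]
    have hJ : jacobiSym (D.natAbs : ℤ) p ≠ 0 := by
      rw [Ne, jacobiSym.eq_zero_iff]
      rintro ⟨-, h3⟩
      apply h3
      rw [Int.gcd_natCast_natCast, Nat.gcd_comm]
      exact (Nat.Prime.coprime_iff_not_dvd hp).2 hqD
    refine mul_ne_zero hJ ?_
    rcases chi_pm (n := a' + m') (by omega) with hε | hε <;> rw [hε] <;> omega

variable {k : ℕ}

/-- vectors with two different absolute values occur at most at one prime -/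
theorem count_le_one {E : Fin (k + 1) → ℤ × ℤ} {D : Fin (k + 1) → ℤ} (hE : ∀ j, CM (E j) (D j)) {N : ℕ}
    (c : ℕ) (r : Fin (k + 1) → ℤ) (x : ℝ) {i j : Fin (k + 1)} (hij : |r i| ≠ |r j|) :
    countQ E (4 * (4 * (N * ∏ j, (D j).natAbs))) N c r x ≤ 1 := by
  have hdiv : ∀ j, 16 * (D j).natAbs ∣ 4 * (4 * (N * ∏ j, (D j).natAbs)) := by
    intro j
    have h1 : (D j).natAbs ∣ N * ∏ j, (D j).natAbs :=
      Dvd.dvd.mul_left (dvd_prod_of_mem (fun j => (D j).natAbs) (mem_univ j)) N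
    obtain ⟨u, hu⟩ := h1
    rw [hu]
    exact ⟨u, by ring⟩
  have key : ∀ p : ℕ, p.Prime → ¬ p ∣ 4 * (4 * (N * ∏ j, (D j).natAbs)) → trace (E i) p = r i → trace (E j) p = r j →
      4 * (p : ℤ) = (r i) ^ 2 + (r j) ^ 2 := by
    intro p hp hq hi hj
    have hqi : ¬ p ∣ 16 * (D i).natAbs := fun h => hq (h.trans (hdiv i))
    have hqj : ¬ p ∣ 16 * (D j).natAbs := fun h => hq (h.trans (hdiv j))
    have h2 : p ≠ 2 := by
      rintro rfl
      exact hqi ⟨8 * (D i).natAbs, by ring⟩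
    -- both traces are nonzero
    have hne : r i ≠ 0 ∧ r j ≠ 0 := by
      constructor
      · intro h0
        have hj0 : r j ≠ 0 := by
          intro h1
          apply hij
          rw [h0, h1]
        obtain ⟨a, m, h3, -⟩ := (law_CM (hE j)).rep p hp hqj (by rw [hj]; exact hj0)
        exact trace_ne (hE i) hp hqi h3 (by rw [hi, h0])
      · intro h0
        have hi0 : r i ≠ 0 := by
          intro h1
          apply hij
          rw [h0, h1]
        obtain ⟨a, m, h3, -⟩ := (law_CM (hE i)).rep p hp hqi (by rw [hi]; exact hi0)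
        exact trace_ne (hE j) hp hqj h3 (by rw [hj, h0])
    obtain ⟨a, m, h3, h4⟩ := (law_CM (hE i)).rep p hp hqi (by rw [hi]; exact hne.1)
    obtain ⟨b, n, h5, h6⟩ := (law_CM (hE j)).rep p hp hqj (by rw [hj]; exact hne.2)
    rw [hi] at h4
    rw [hj] at h6
    have hab : a ^ 2 ≠ b ^ 2 := by
      intro h7
      apply hij
      rw [h4, h6, abs_mul, abs_mul, (sq_eq_sq_iff_abs_eq_abs _ _).1 h7]
    rw [h4, h6]
    have h3' : m ^ 2 + a ^ 2 = (p : ℤ) := by linarith
    have h5' : n ^ 2 + b ^ 2 = (p : ℤ) := by linarith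
    rcases parity hp h2 h3 with ⟨p1, p2⟩ | ⟨p1, p2⟩ <;> rcases parity hp h2 h5 with ⟨p3, p4⟩ | ⟨p3, p4⟩
    · exact absurd (sq_unique hp h3 h5 p1 p3 p2) hab
    · have h8 : a ^ 2 = n ^ 2 := sq_unique hp h3 h5' p1 p4 p2
      nlinarith
    · have h8 : m ^ 2 = b ^ 2 := sq_unique hp h3' h5 p2 p3 p1
      nlinarith
    · have h8 : m ^ 2 = n ^ 2 := sq_unique hp h3' h5' p2 p4 p1
      exact absurd (by linarith) hab
  unfold countQ
  rw [card_le_one]
  intro p hp p' hp'
  rw [mem_filter] at hp hp'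
  have h1 := key p hp.2.1 hp.2.2.1 (hp.2.2.2.2 i) (hp.2.2.2.2 j)
  have h2 := key p' hp'.2.1 hp'.2.2.1 (hp'.2.2.2.2 i) (hp'.2.2.2.2 j)
  omega

end Pool.Agent.H533.JQ
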