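import Pool.Agent.H533.JQ.Stm

set_option autoImplicit false

namespace Pool.Agent.H533.JQ.PERL

open Pool.Agent.H533.JQ Finset

lemma gi_sq : gi * gi = -1 := by
  apply Zsqrtd.ext <;> simp [gi]

lemma four_cases {u : ZI} (h : u ^ 4 = 1) : u = 1 ∨ u = -1 ∨ u = gi ∨ u = -gi := by
  have h1 : (u - 1) * ((u + 1) * ((u - gi) * (u + gi))) = 0 := by
    have : (u - 1) * ((u + 1) * ((u - gi) * (u + gi))) = (u ^ 2 - 1) * (u ^ 2 - gi * gi) := by ring
    rw [this, gi_sq]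
    linear_combination h
  rcases mul_eq_zero.1 h1 with h | h
  · left; linear_combination h
  rcases mul_eq_zero.1 h with h | h
  · right; left; linear_combination h
  rcases mul_eq_zero.1 h with h | h
  · right; right; left; linear_combination h
  · right; right; right; linear_combination h

lemma gz_eq (a m : ℤ) : gz a m = (a : ZI) + (m : ZI) * gi := by
  apply Zsqrtd.ext <;> simp [gi, gz]

lemma phi_gz {F : Type*} [Field F] (φ : ZI →+* F) (a m : ℤ) :
    φ (gz a m) = (a : F) + (m : F) * φ gi := by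
  rw [gz_eq, map_add, map_mul, map_intCast, map_intCast]

lemma phi_gi {F : Type*} [Field F] (φ : ZI →+* F) : φ gi * φ gi = -1 := by
  rw [← map_mul, gi_sq, map_neg, map_one]

lemma exists_phi (F : Type*) [Field F] [IsAlgClosed F] : ∃ _ : ZI →+* F, True := by
  obtain ⟨z, hz⟩ := IsAlgClosed.exists_pow_nat_eq (-1 : F) (n := 2) (by norm_num)
  exact ⟨Zsqrtd.lift ⟨z, by rw [← pow_two, hz]; simp⟩, trivial⟩

/-- injectivity on the fourth roots of unity -/
lemma phi_inj {F : Type*} [Field F] (h2 : (2 : F) ≠ 0) (φ : ZI →+* F) {u v : ZI} (hu : u ^ 4 = 1)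
    (hv : v ^ 4 = 1) (h : φ u = φ v) : u = v := by
  have hw : (u * v ^ 3) ^ 4 = 1 := by
    have : (u * v ^ 3) ^ 4 = u ^ 4 * (v ^ 4) ^ 3 := by ring
    rw [this, hu, hv]; ring
  have hφ : φ (u * v ^ 3) = 1 := by
    rw [map_mul, map_pow, h]
    have : φ v * φ v ^ 3 = φ (v ^ 4) := by rw [map_pow]; ring
    rw [this, hv, map_one]
  have hg := phi_gi φ
  have h1 : u * v ^ 3 = 1 := by
    rcases four_cases hw with e | e | e | e
    · exact e
    · rw [e, map_neg, map_one] at hφ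
      exact absurd (by linear_combination -hφ) h2
    · rw [e] at hφ
      rw [hφ] at hg
      exact absurd (by linear_combination hg) h2
    · rw [e, map_neg] at hφ
      have : φ gi = -1 := by linear_combination -hφ
      rw [this] at hg
      exact absurd (by linear_combination hg) h2
  calc u = u * v ^ 4 := by rw [hv, mul_one]
    _ = (u * v ^ 3) * v := by ring
    _ = v := by rw [h1, one_mul]

lemma p_ne_two {p : ℕ} {a m : ℤ} (h : PD p a m) : p ≠ 2 := by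
  rintro rfl
  have h1 := h.rep
  have h2 := h.odd
  have h3 := h.even
  obtain ⟨k, hk⟩ : ∃ k, a = 2 * k + 1 := ⟨a / 2, by omega⟩
  obtain ⟨n, hn⟩ : ∃ n, m = 2 * n := ⟨m / 2, by omega⟩
  subst hk hn
  have : 2 * (2 * k ^ 2 + 2 * k + 2 * n ^ 2) + 1 = (2 : ℤ) := by
    push_cast at h1
    linarith
  omega

lemma not_dvd_two {p : ℕ} {a m : ℤ} (h : PD p a m) : ¬ gz a m ∣ 2 := by
  rintro ⟨z, hz⟩
  have h1 : (2 : ZI).norm = (gz a m).norm * z.norm := by rw [hz, Zsqrtd.norm_mul]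
  have h2 : (2 : ZI).norm = 4 := by rw [Zsqrtd.norm_def]; norm_num
  have h3 : (gz a m).norm = (p : ℤ) := by
    rw [Zsqrtd.norm_def, ← h.rep]
    simp only [gz]
    ring
  rw [h2, h3] at h1
  have h4 : (p : ℤ) ∣ 4 := ⟨_, h1⟩
  have h5 : p ∣ 2 ^ 2 := by exact_mod_cast h4
  exact p_ne_two h ((Nat.prime_dvd_prime_iff_eq h.pr Nat.prime_two).1 (h.pr.dvd_of_dvd_pow h5))

lemma chi_neg_one {p : ℕ} [Fact p.Prime] {a m : ℤ} {χ : MulChar (ZMod p) ZI} (h : PD p a m)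
    (hq : QC p a m χ) : χ (-1) = (-1) ^ ((p - 1) / 4) := by
  have hp : ¬ (p : ℤ) ∣ (-1) := by
    intro hd
    have h5 : (p : ℤ) ∣ 1 := by rwa [dvd_neg] at hd
    have h6 : p ∣ 1 := by exact_mod_cast h5
    exact h.pr.one_lt.ne' (Nat.dvd_one.1 h6)
  have h1 := hq.cong (-1) hp
  have h2 : χ (-1) = 1 ∨ χ (-1) = -1 := by
    have : χ (-1) * χ (-1) = 1 := by rw [← map_mul]; simp
    exact mul_self_eq_one_iff.1 this
  have hn := not_dvd_two h
  push_cast at h1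
  rcases neg_one_pow_eq_or ZI ((p - 1) / 4) with e | e <;> rcases h2 with f | f <;>
    rw [e, f] at h1 ⊢
  · exact absurd (by have : (1 : ZI) - -1 = 2 := by norm_num
                     rwa [this] at h1) hn
  · exact absurd (by have : (-1 : ZI) - 1 = -2 := by norm_num
                     rwa [this, dvd_neg] at h1) hn

lemma par {p p' : ℕ} {a m a' m' : ℤ} (h : PD p a m) (h' : PD p' a' m') (ha : (4 : ℤ) ∣ a - a')
    (hm : (4 : ℤ) ∣ m - m') : (-1 : ZI) ^ ((p - 1) / 4) = (-1) ^ ((p' - 1) / 4) := by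
  have r := h.rep
  have r' := h'.rep
  have o := h.odd
  have o' := h'.odd
  have e := h.even
  have e' := h'.even
  obtain ⟨k, hk⟩ := ha
  obtain ⟨n, hn⟩ := hm
  obtain ⟨s, hs⟩ : ∃ s, a = 2 * s + 1 := ⟨a / 2, by omega⟩
  obtain ⟨t, ht⟩ : ∃ t, m = 2 * t := ⟨m / 2, by omega⟩
  have ha' : a' = 2 * s + 1 - 4 * k := by omega
  have hm' : m' = 2 * t - 4 * n := by omega
  have q1 : (p : ℤ) = 4 * (s ^ 2 + s + t ^ 2) + 1 := by rw [← r, hs, ht]; ring
  have q2 : (p' : ℤ) = p + 8 * (2 * k ^ 2 - (2 * s + 1) * k + 2 * n ^ 2 - 2 * t * n) := by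
    rw [q1, ← r', ha', hm']; ring
  obtain ⟨w, hw⟩ : ∃ w : ℤ, w = s ^ 2 + s + t ^ 2 := ⟨_, rfl⟩
  obtain ⟨v, hv⟩ : ∃ v : ℤ, v = 2 * k ^ 2 - (2 * s + 1) * k + 2 * n ^ 2 - 2 * t * n := ⟨_, rfl⟩
  rw [← hw] at q1
  rw [← hv] at q2
  have key : ((p - 1) / 4) % 2 = ((p' - 1) / 4) % 2 := by omega
  rw [← Nat.div_add_mod ((p - 1) / 4) 2, ← Nat.div_add_mod ((p' - 1) / 4) 2, key]
  simp only [pow_add, pow_mul]
  norm_num

/-- periodicity at odd primes -/
theorem t_PERL : S_PERL := by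
  intro gsf p p' ℓ _ _ _ a m a' m' χ χ' h h' hq hq' hJ hJ' hℓ2 hℓp hℓp' ha hm
  have hℓ : ℓ.Prime := Fact.out
  have : CharP (AlgebraicClosure (ZMod ℓ)) ℓ := inferInstance
  obtain ⟨φ, -⟩ := exists_phi (AlgebraicClosure (ZMod ℓ))
  have h2 : (2 : AlgebraicClosure (ZMod ℓ)) ≠ 0 := by
    intro h0
    have h1 : ((2 : ℕ) : AlgebraicClosure (ZMod ℓ)) = 0 := by exact_mod_cast h0
    rw [CharP.cast_eq_zero_iff _ ℓ] at h1
    exact hℓ2 ((Nat.prime_dvd_prime_iff_eq hℓ Nat.prime_two).1 h1)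
  have hu : χ (ℓ : ZMod p) ^ 4 = 1 := hq.four _ (by
    intro h0
    rw [ZMod.natCast_eq_zero_iff] at h0
    exact hℓp ((Nat.prime_dvd_prime_iff_eq h.pr hℓ).1 h0).symm)
  have hu' : χ' (ℓ : ZMod p') ^ 4 = 1 := hq'.four _ (by
    intro h0
    rw [ZMod.natCast_eq_zero_iff] at h0
    exact hℓp' ((Nat.prime_dvd_prime_iff_eq h'.pr hℓ).1 h0).symm)
  have ca : (a : AlgebraicClosure (ZMod ℓ)) = (a' : AlgebraicClosure (ZMod ℓ)) := by
    have : (ℓ : ℤ) ∣ a - a' := (Dvd.intro_left _ rfl).trans ha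
    have h3 : ((a - a' : ℤ) : AlgebraicClosure (ZMod ℓ)) = 0 := by
      rwa [CharP.intCast_eq_zero_iff _ ℓ]
    push_cast at h3
    exact sub_eq_zero.1 h3
  have cm : (m : AlgebraicClosure (ZMod ℓ)) = (m' : AlgebraicClosure (ZMod ℓ)) := by
    have : (ℓ : ℤ) ∣ m - m' := (Dvd.intro_left _ rfl).trans hm
    have h3 : ((m - m' : ℤ) : AlgebraicClosure (ZMod ℓ)) = 0 := by
      rwa [CharP.intCast_eq_zero_iff _ ℓ]
    push_cast at h3
    exact sub_eq_zero.1 h3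
  have cp : φ (p : ZI) = (a : AlgebraicClosure (ZMod ℓ)) ^ 2 + (m : AlgebraicClosure (ZMod ℓ)) ^ 2 := by
    rw [map_natCast]
    have := congrArg (Int.cast : ℤ → AlgebraicClosure (ZMod ℓ)) h.rep
    push_cast at this
    exact this.symm
  have cp' : φ (p' : ZI) = (a' : AlgebraicClosure (ZMod ℓ)) ^ 2 + (m' : AlgebraicClosure (ZMod ℓ)) ^ 2 := by
    rw [map_natCast]
    have := congrArg (Int.cast : ℤ → AlgebraicClosure (ZMod ℓ)) h'.rep
    push_cast at this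
    exact this.symm
  have ep : φ (p' : ZI) = φ (p : ZI) := by rw [cp, cp', ca, cm]
  have eg : φ (gz a' m') = φ (gz a m) := by rw [phi_gz, phi_gz, ca, cm]
  have np : φ (p : ZI) ≠ 0 := by
    rw [map_natCast]
    intro h0
    rw [CharP.cast_eq_zero_iff _ ℓ] at h0
    exact hℓp ((Nat.prime_dvd_prime_iff_eq hℓ h.pr).1 h0)
  apply phi_inj h2 φ hu hu'
  have g := gsf p ℓ a m χ h hq hℓ2 hℓp hJ φ
  have g' := gsf p' ℓ a' m' χ' h' hq' hℓ2 hℓp' hJ' φ
  have eM : φ ((p' : ZI) * gz a' m' ^ 2) = φ ((p : ZI) * gz a m ^ 2) := by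
    rw [map_mul, map_mul, map_pow, map_pow, ep, eg]
  rw [eM] at g'
  have hodd : ℓ % 2 = 1 := hℓ.eq_two_or_odd.resolve_left hℓ2
  rcases (by omega : ℓ % 4 = 1 ∨ ℓ % 4 = 3) with h4 | h4
  · have g1 := g.1 h4
    have g2 := g'.1 h4
    have hM : φ ((p : ZI) * gz a m ^ 2) ^ ((ℓ - 1) / 4) ≠ 0 := by
      intro h0
      rw [h0, mul_zero] at g1
      exact zero_ne_one g1
    exact mul_right_cancel₀ hM (g1.trans g2.symm)
  · have g1 := g.2 h4
    have g2 := g'.2 h4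
    have e1 : χ' (-1) = χ (-1) := by
      rw [chi_neg_one h hq, chi_neg_one h' hq']
      exact (par h h' ((Dvd.intro _ rfl).trans ha) ((Dvd.intro _ rfl).trans hm)).symm
    rw [e1, ep] at g2
    have n1 : φ (χ (-1)) ≠ 0 := by
      have : χ (-1) * χ (-1) = 1 := by rw [← map_mul]; simp
      intro h0
      have h5 := congrArg φ this
      rw [map_mul, h0, map_one, mul_zero] at h5
      exact zero_ne_one h5
    exact mul_right_cancel₀ n1 (mul_right_cancel₀ np (g1.trans g2.symm))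

end Pool.Agent.H533.JQ.PERL
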