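import Pool.Agent.H533.JQ.Stm

/-!
# Project JQ: the character sum of `x³ - D x` in terms of the quartic Jacobi sum
-/

set_option autoImplicit false

namespace Pool.Agent.H533.JQ.TRF

open Finset Pool.Agent.H533.JQ

theorem pmod {p : ℕ} {a m : ℤ} (h : PD p a m) : p % 4 = 1 := by
  obtain ⟨-, hr, ho, he⟩ := h
  have h1 : (p : ℤ) % 4 = 1 := by
    obtain ⟨k, hk⟩ : ∃ k, a = 2 * k + 1 := ⟨a / 2, by omega⟩
    obtain ⟨l, hl⟩ : ∃ l, m = 2 * l := ⟨m / 2, by omega⟩
    rw [← hr, hk, hl]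
    have : (2 * k + 1) ^ 2 + (2 * l) ^ 2 = 4 * (k ^ 2 + k + l ^ 2) + 1 := by ring
    rw [this]
    omega
  omega

theorem dvdp {p : ℕ} {a m : ℤ} (h : PD p a m) : gz a m ∣ ((p : ℤ) : ZI) := by
  refine ⟨star (gz a m), ?_⟩
  have h1 : Zsqrtd.norm (gz a m) = (p : ℤ) := by
    rw [← h.rep]
    simp only [Zsqrtd.norm, gz]
    ring
  rw [← Zsqrtd.norm_eq_mul_conj, h1]

theorem not_dvd_two {p : ℕ} {a m : ℤ} (h : PD p a m) : ¬ gz a m ∣ (2 : ZI) := by
  rintro ⟨c, hc⟩
  have h1 := congrArg Zsqrtd.norm hc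
  rw [Zsqrtd.norm_mul] at h1
  have h2 : Zsqrtd.norm (gz a m) = (p : ℤ) := by
    rw [← h.rep]
    simp only [Zsqrtd.norm, gz]
    ring
  have h3 : Zsqrtd.norm (2 : ZI) = 4 := by decide
  rw [h2, h3] at h1
  have h4 : (p : ℤ) ∣ 4 := ⟨_, h1⟩
  have h5 : p ∣ 4 := by exact_mod_cast h4
  have h6 := pmod h
  have h7 := Nat.le_of_dvd (by norm_num) h5
  have h8 := h.pr.two_le
  interval_cases p <;> omega

theorem ringChar_ne {p : ℕ} {a m : ℤ} (h : PD p a m) : ringChar (ZMod p) ≠ 2 := by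
  rw [ZMod.ringChar_zmod_n]
  have := pmod h
  omega

theorem q2_apply (p : ℕ) [Fact p.Prime] (x : ZMod p) :
    q2 p x = ((quadraticChar (ZMod p) x : ℤ) : ZI) := rfl

/-- the square of the quartic character -/
theorem chi_sq {p : ℕ} [Fact p.Prime] {a m : ℤ} {χ : MulChar (ZMod p) ZI} (h : PD p a m)
    (hq : QC p a m χ) (x : ZMod p) : χ x ^ 2 = q2 p x := by
  rcases eq_or_ne x 0 with rfl | hx
  · rw [MulChar.map_nonunit χ (by simp), MulChar.map_nonunit (q2 p) (by simp)]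
    simp
  obtain ⟨n, rfl⟩ := ZMod.intCast_surjective x
  have hn : ¬ (p : ℤ) ∣ n := by
    intro hd
    exact hx ((ZMod.intCast_zmod_eq_zero_iff_dvd n p).2 hd)
  have hp4 := pmod h
  have h1 : gz a m ∣ ((n : ZI) ^ (p / 2)) - χ (n : ZMod p) ^ 2 := by
    have h2 := hq.cong n hn
    have h3 : (n : ZI) ^ (p / 2) = ((n : ZI) ^ ((p - 1) / 4)) ^ 2 := by
      rw [← pow_mul]
      congr 1
      omega
    rw [h3, sq_sub_sq]
    exact Dvd.dvd.mul_left h2 _
  have h2 : ((p : ℤ) : ZI) ∣ ((quadraticChar (ZMod p) (n : ZMod p) : ℤ) : ZI) - (n : ZI) ^ (p / 2) := by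
    have h3 := quadraticChar_eq_pow_of_char_ne_two' (ringChar_ne h) (n : ZMod p)
    rw [ZMod.card] at h3
    have h4 : (((n : ℤ) ^ (p / 2) : ℤ) : ZMod p) = ((quadraticChar (ZMod p) (n : ZMod p) : ℤ) : ZMod p) := by
      rw [h3]
      push_cast
      rfl
    rw [ZMod.intCast_eq_intCast_iff_dvd_sub] at h4
    obtain ⟨c, hc⟩ := h4
    refine ⟨(c : ZI), ?_⟩
    have h5 := congrArg (Int.cast : ℤ → ZI) hc
    push_cast at h5 ⊢
    exact h5
  have h3 : gz a m ∣ q2 p (n : ZMod p) - χ (n : ZMod p) ^ 2 := by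
    have h4 := (dvdp h).trans h2
    have h5 := dvd_add h4 h1
    rw [q2_apply]
    convert h5 using 1
    ring
  have h4 : χ (n : ZMod p) ^ 2 = 1 ∨ χ (n : ZMod p) ^ 2 = -1 := by
    have h7 := hq.four (n : ZMod p) hx
    apply mul_self_eq_one_iff.1
    rw [← h7]
    ring
  have h5 : q2 p (n : ZMod p) = 1 ∨ q2 p (n : ZMod p) = -1 := by
    rw [q2_apply]
    rcases quadraticChar_dichotomy hx with h | h <;> rw [h] <;> simp
  have h6 := not_dvd_two h
  rcases h4 with h4 | h4 <;> rcases h5 with h5 | h5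
  · rw [h4, h5]
  · exfalso
    rw [h4, h5] at h3
    apply h6
    rw [← dvd_neg]
    convert h3 using 1
    norm_num
  · exfalso
    rw [h4, h5] at h3
    apply h6
    convert h3 using 1
    norm_num
  · rw [h4, h5]

/-- the cube of the quartic character -/
theorem chi_star {p : ℕ} [Fact p.Prime] {a m : ℤ} {χ : MulChar (ZMod p) ZI}
    (hq : QC p a m χ) (x : ZMod p) : star (χ x) = χ x ^ 3 := by
  rcases eq_or_ne x 0 with rfl | hx
  · rw [MulChar.map_nonunit χ (by simp)]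
    simp
  have h1 := hq.four x hx
  have h2 : Zsqrtd.norm (χ x) ^ 4 = 1 := by
    have h3 := congrArg Zsqrtd.norm h1
    have h4 : ∀ z : ZI, Zsqrtd.norm (z ^ 4) = Zsqrtd.norm z ^ 4 := fun z => by
      simp only [pow_succ, pow_zero, one_mul, Zsqrtd.norm_mul]
    rw [h4] at h3
    simpa using h3
  have h3 : Zsqrtd.norm (χ x) = 1 := by
    have h4 := Zsqrtd.norm_nonneg (by norm_num : (-1 : ℤ) ≤ 0) (χ x)
    exact (pow_eq_one_iff_of_nonneg h4 (by norm_num)).1 h2
  have h4 := Zsqrtd.norm_eq_mul_conj (χ x)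
  rw [h3] at h4
  calc star (χ x) = χ x ^ 4 * star (χ x) := by rw [h1, one_mul]
    _ = χ x ^ 3 * (χ x * star (χ x)) := by ring
    _ = χ x ^ 3 := by rw [← h4]; simp

theorem q2_neg {p : ℕ} [Fact p.Prime] {a m : ℤ} (h : PD p a m) (x : ZMod p) :
    q2 p (-x) = q2 p x := by
  have h1 : q2 p (-1) = 1 := by
    rw [q2_apply, quadraticChar_neg_one (ringChar_ne h), ZMod.card, ZMod.χ₄_nat_one_mod_four (pmod h)]
    simp
  have h2 : -x = (-1) * x := by ring
  rw [h2, map_mul, h1, one_mul]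

/-- sums over squares -/
theorem sum_sq {p : ℕ} [Fact p.Prime] {a m : ℤ} (h : PD p a m) (f : ZMod p → ZI) :
    ∑ x : ZMod p, f (x ^ 2) = ∑ y : ZMod p, (1 + q2 p y) * f y := by
  classical
  rw [← Finset.sum_fiberwise Finset.univ (fun x : ZMod p => x ^ 2)]
  refine Finset.sum_congr rfl fun y _ => ?_
  have h1 : ∑ x ∈ Finset.univ.filter (fun x : ZMod p => x ^ 2 = y), f (x ^ 2) =
      ∑ x ∈ Finset.univ.filter (fun x : ZMod p => x ^ 2 = y), f y :=
    Finset.sum_congr rfl fun x hx => by rw [(Finset.mem_filter.1 hx).2]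
  rw [h1, Finset.sum_const, nsmul_eq_mul]
  congr 1
  have h2 := quadraticChar_card_sqrts (ringChar_ne h) y
  rw [q2_apply]
  have h3 : (Finset.univ.filter (fun x : ZMod p => x ^ 2 = y)).card =
      ({x : ZMod p | x ^ 2 = y} : Set (ZMod p)).toFinset.card := by
    congr 1
    ext x
    simp
  rw [h3, add_comm]
  have h4 := congrArg (Int.cast : ℤ → ZI) h2
  push_cast at h4
  exact h4

theorem t_TRF : S_TRF := by
  intro p _ a m χ h hq D hD
  have e1 : ((∑ x : ZMod p, quadraticChar (ZMod p) (x ^ 3 - D * x) : ℤ) : ZI) =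
      ∑ x : ZMod p, χ (x ^ 2) * q2 p (x ^ 2 - D) := by
    push_cast
    refine Finset.sum_congr rfl fun x _ => ?_
    rw [← q2_apply, show x ^ 3 - D * x = x * (x ^ 2 - D) by ring, map_mul, map_pow, chi_sq h hq]
  have e2 : ∑ x : ZMod p, χ (x ^ 2) * q2 p (x ^ 2 - D) =
      ∑ y : ZMod p, (1 + q2 p y) * (χ y * q2 p (y - D)) :=
    sum_sq h (fun y => χ y * q2 p (y - D))
  have e3 : ∑ y : ZMod p, (1 + q2 p y) * (χ y * q2 p (y - D)) =
      ∑ y : ZMod p, χ y * q2 p (y - D) + star (∑ y : ZMod p, χ y * q2 p (y - D)) := by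
    rw [star_sum, ← Finset.sum_add_distrib]
    refine Finset.sum_congr rfl fun y _ => ?_
    have e4 : star (q2 p (y - D)) = q2 p (y - D) := by
      rw [q2_apply]
      simp
    rw [star_mul', e4, chi_star hq, ← chi_sq h hq]
    ring
  have e5 : ∑ y : ZMod p, χ y * q2 p (y - D) = star (χ D) * jacobiSum χ (q2 p) := by
    rw [← Equiv.sum_comp (Equiv.mulLeft₀ D hD), jacobiSum, Finset.mul_sum]
    refine Finset.sum_congr rfl fun z _ => ?_
    have e6 : (Equiv.mulLeft₀ D hD) z = D * z := rfl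
    rw [e6, show D * z - D = D * (-(1 - z)) by ring, map_mul, map_mul, q2_neg h, chi_star hq,
      ← chi_sq h hq D]
    ring
  rw [e1, e2, e3, e5, star_mul', star_star]

end Pool.Agent.H533.JQ.TRF
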