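import Pool.Agent.H533.JQ.CHAR
import Pool.Agent.H533.JQ.DIV
import Pool.Agent.H533.JQ.NRM
import Pool.Agent.H533.JQ.TRF
import Pool.Agent.H533.JQ.JAC
import Pool.Agent.H533.JQ.GSF
import Pool.Agent.H533.JQ.PERL
import Pool.Agent.H533.JT.Tr

/-!
# Project JQ (helper533): the quartic character is periodic
-/

set_option autoImplicit false

namespace Pool.Agent.H533.JQ

open Finset Pool.Agent.N782.GN Pool.Agent.N782.GN.LT Pool.Agent.H304R2.EC Pool.Agent.H304R2.EC.Pts Pool.Agent.H533.JT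

theorem S1 {p : ℕ} [Fact p.Prime] {a m : ℤ} (h : PD p a m) :
    (∑ x : ZMod p, quadraticChar (ZMod p) (x ^ 3 - x) : ℤ) = - (2 * ZMod.χ₄ ((a + m : ℤ) : ZMod 4) * a) := by
  have h2 : p ≠ 2 := PERL.p_ne_two h
  have h1 := sum_an (p := p) 1 h2 (fun h1 => h.pr.one_lt.ne' (Nat.dvd_one.1 h1))
  have h3 : jacobiSym ((1 : ℕ) : ℤ) p = 1 := by
    rw [Nat.cast_one]
    exact jacobiSym.one_left p
  rw [h3, one_mul, an_prime h.pr h.rep h.odd h.even] at h1
  rw [← h1, neg_neg]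
  refine sum_congr rfl fun x _ => ?_
  congr 1
  push_cast
  ring

theorem J_eq {p : ℕ} [Fact p.Prime] {a m : ℤ} {χ : MulChar (ZMod p) ZI} (h : PD p a m) (hc : QC p a m χ) :
    jacobiSum χ (q2 p) = - ((ZMod.χ₄ ((a + m : ℤ) : ZMod 4) : ℤ) : ZI) * gz a m :=
  JAC.t_JAC DIV.t_DIV NRM.t_NRM TRF.t_TRF p a m χ h hc (S1 h)

theorem J_sq {p : ℕ} [Fact p.Prime] {a m : ℤ} {χ : MulChar (ZMod p) ZI} (h : PD p a m) (hc : QC p a m χ) :
    jacobiSum χ (q2 p) ^ 2 = gz a m ^ 2 := by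
  rw [J_eq h hc]
  have h1 := h.odd
  have h2 := h.even
  rcases chi_pm (n := a + m) (by omega) with h | h <;> rw [h] <;> push_cast <;> ring

/-- the statement at 2 -/
theorem chi_two (htwo : S_TWO) {p p' : ℕ} [Fact p.Prime] [Fact p'.Prime] {a m a' m' : ℤ} {χ : MulChar (ZMod p) ZI}
    {χ' : MulChar (ZMod p') ZI} (h : PD p a m) (h' : PD p' a' m') (hc : QC p a m χ) (hc' : QC p' a' m' χ')
    (ha : (16 : ℤ) ∣ a - a') (hm : (16 : ℤ) ∣ m - m') : χ 2 = χ' 2 := by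
  rw [htwo p a m χ h hc, htwo p' a' m' χ' h' hc']
  obtain ⟨u, hu⟩ := ha
  obtain ⟨v, hv⟩ := hm
  have h1 := h.odd
  have h2 := h.even
  have h1' := h'.odd
  have h2' := h'.even
  have hpp : (p : ℤ) - p' = 16 * (u * (a + a') + v * (m + m')) := by
    rw [← h.rep, ← h'.rep]
    have e1 : a ^ 2 + m ^ 2 - (a' ^ 2 + m' ^ 2) = (a - a') * (a + a') + (m - m') * (m + m') := by ring
    rw [e1, hu, hv]
    ring
  have hmod : p % 16 = p' % 16 := by omega
  have hpos := h.pr.pos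
  have hpos' := h'.pr.pos
  have e1 : ((p - 1) / 4) % 4 = ((p' - 1) / 4) % 4 := by omega
  have hg4 : (-gi) ^ 4 = (1 : ZI) := by
    rw [neg_pow, CHAR.gi_four]
    norm_num
  have e2 : (-gi) ^ ((p - 1) / 4) = (-gi) ^ ((p' - 1) / 4) := by
    rw [← Nat.div_add_mod ((p - 1) / 4) 4, ← Nat.div_add_mod ((p' - 1) / 4) 4, pow_add, pow_add, pow_mul, pow_mul, hg4,
      one_pow, one_pow, e1]
  have e3 : (-1 : ZI) ^ (m / 2).natAbs = (-1) ^ (m' / 2).natAbs := by
    rw [neg_one_pow_eq_pow_mod_two, neg_one_pow_eq_pow_mod_two (n := (m' / 2).natAbs)]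
    congr 1
    omega
  have e4 : jacobiSym 2 (a - m).natAbs = jacobiSym 2 (a' - m').natAbs := by
    have o1 : Odd (a - m).natAbs := by
      rw [Nat.odd_iff]
      omega
    have o2 : Odd (a' - m').natAbs := by
      rw [Nat.odd_iff]
      omega
    rw [jacobiSym.at_two o1, jacobiSym.at_two o2, ZMod.χ₈_nat_eq_if_mod_eight, ZMod.χ₈_nat_eq_if_mod_eight]
    have k1 : (a - m).natAbs % 2 = (a' - m').natAbs % 2 := by omega
    have k2 : ((a - m).natAbs % 8 = 1 ∨ (a - m).natAbs % 8 = 7) ↔ ((a' - m').natAbs % 8 = 1 ∨ (a' - m').natAbs % 8 = 7) := by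
      omega
    rw [k1]
    simp only [k2]
  rw [e2, e3, e4]

/-- periodicity at natural numbers -/
theorem chi_nat (htwo : S_TWO) (n : ℕ) : n ≠ 0 → ∀ (p p' : ℕ) [Fact p.Prime] [Fact p'.Prime] (a m a' m' : ℤ)
    (χ : MulChar (ZMod p) ZI) (χ' : MulChar (ZMod p') ZI), PD p a m → PD p' a' m' → QC p a m χ → QC p' a' m' χ' →
    ¬ p ∣ 2 * n → ¬ p' ∣ 2 * n → (16 * (n : ℤ)) ∣ a - a' → (16 * (n : ℤ)) ∣ m - m' → χ (n : ZMod p) = χ' (n : ZMod p') := by
  induction n using induction_on_primes with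
  | zero => exact fun h => absurd rfl h
  | one =>
    intro _ p p' _ _ a m a' m' χ χ' h h' hc hc' _ _ _ _
    rw [Nat.cast_one, Nat.cast_one, map_one, map_one]
  | prime_mul l b hl ih =>
    intro hn p p' _ _ a m a' m' χ χ' h h' hc hc' hp hp' ha hm
    have hb : b ≠ 0 := fun hb => hn (by rw [hb, mul_zero])
    have : Fact l.Prime := ⟨hl⟩
    have d1 : (16 * (b : ℤ)) ∣ (16 * ((l * b : ℕ) : ℤ)) := ⟨l, by push_cast; ring⟩
    have d2 : (4 * (l : ℤ)) ∣ (16 * ((l * b : ℕ) : ℤ)) := ⟨4 * b, by push_cast; ring⟩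
    have d3 : (16 : ℤ) ∣ (16 * ((l * b : ℕ) : ℤ)) := dvd_mul_right _ _
    have e1 : χ (b : ZMod p) = χ' (b : ZMod p') := by
      refine ih hb p p' a m a' m' χ χ' h h' hc hc' (fun h1 => hp ?_) (fun h1 => hp' ?_) (d1.trans ha) (d1.trans hm)
      · refine h1.trans ⟨l, by ring⟩
      · refine h1.trans ⟨l, by ring⟩
    have e2 : χ (l : ZMod p) = χ' (l : ZMod p') := by
      by_cases hl2 : l = 2
      · subst hl2
        have := chi_two htwo h h' hc hc' (d3.trans ha) (d3.trans hm)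
        exact_mod_cast this
      · refine PERL.t_PERL GSF.t_GSF p p' l a m a' m' χ χ' h h' hc hc' (J_sq h hc) (J_sq h' hc') hl2 ?_ ?_ (d2.trans ha)
          (d2.trans hm)
        · rintro rfl
          exact hp ⟨2 * b, by ring⟩
        · rintro rfl
          exact hp' ⟨2 * b, by ring⟩
    rw [Nat.cast_mul, Nat.cast_mul, map_mul, map_mul, e1, e2]

end Pool.Agent.H533.JQ
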